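import Mathlib

/-!
# Baire boxes of bounded sequences which tend to zero along countably many ultrafilters
-/

set_option autoImplicit false

namespace Pool.Agent.CPB

open Set Filter Topology

/-- The sequences in `[-1, 1]` which tend to zero along the ultrafilters `q a`. -/
def YS {ι : Type*} (q : ι → Ultrafilter ℕ) : Set (ℕ → ℝ) :=
  {f | (∀ n, |f n| ≤ 1) ∧ ∀ a, Tendsto f (q a : Filter ℕ) (𝓝 0)}

/-- Recursion along a tree with the parent function `par`. -/
theorem exists_table {α : Type*} (P : ℕ → α → α → α → Prop) (a0 : α)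
    (h : ∀ k a b, ∃ c, P k a b c) (par : ℕ → ℕ) (hpar : ∀ k, par k ≤ k) :
    ∃ c : ℕ → α, c 0 = a0 ∧ ∀ k, P k (c (par k)) (c k) (c (k + 1)) := by
  classical
  choose F hF using h
  let st : ℕ → ℕ → α := fun j => Nat.rec (fun _ => a0)
    (fun k t => Function.update t (k + 1) (F k (t (par k)) (t k))) j
  have hst : ∀ k, st (k + 1) = Function.update (st k) (k + 1) (F k (st k (par k)) (st k k)) :=
    fun k => rfl
  have key : ∀ j i, i ≤ j → st j i = st i i := by
    intro j
    induction j with
    | zero =>
      intro i hi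
      obtain rfl : i = 0 := by omega
      rfl
    | succ j ih =>
      intro i hi
      rcases Nat.lt_or_ge j i with h1 | h1
      · obtain rfl : i = j + 1 := by omega
        rfl
      · rw [hst, Function.update_of_ne (by omega), ih i h1]
  refine ⟨fun k => st k k, rfl, fun k => ?_⟩
  have h1 : st (k + 1) (k + 1) = F k (st k (par k)) (st k k) := by
    rw [hst, Function.update_self]
  change P k (st (par k) (par k)) (st k k) (st (k + 1) (k + 1))
  rw [h1, ← key k (par k) (hpar k)]
  exact hF _ _ _

/-- The nodes of a branch of the binary tree. -/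
def node (r : ℕ → Bool) : ℕ → ℕ
  | 0 => 0
  | j + 1 => 2 * node r j + 1 + (if r j then 1 else 0)

theorem node_lt (r : ℕ → Bool) (j : ℕ) : node r j < node r (j + 1) := by
  rw [node]
  omega

theorem node_strictMono (r : ℕ → Bool) : StrictMono (node r) := strictMono_nat_of_lt_succ (node_lt r)

theorem le_node (r : ℕ → Bool) (j : ℕ) : j ≤ node r j := (node_strictMono r).le_apply

theorem node_par (r : ℕ → Bool) (j : ℕ) : (node r (j + 1) - 1) / 2 = node r j := by
  rw [node]
  split_ifs <;> omega

/-- Common nodes of different branches. -/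
theorem node_common {r r' : ℕ → Bool} {n : ℕ} (hn : r n ≠ r' n) {i j : ℕ}
    (h : node r i = node r' j) : i ≤ n := by
  by_contra hi
  push Not at hi
  have key : ∀ m i j, node r (i + m) = node r' (j + m) → node r i = node r' j := by
    intro m
    induction m with
    | zero => exact fun i j h => h
    | succ m ih =>
      intro i j h
      apply ih
      have h1 := node_par r (i + m)
      have h2 := node_par r' (j + m)
      rw [← h1, ← h2]
      rw [← Nat.add_assoc, ← Nat.add_assoc] at h
      rw [h]
  have hij : i = j := by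
    rcases Nat.le_total i j with hij | hij
    · obtain ⟨d, rfl⟩ := Nat.exists_eq_add_of_le hij
      have h1 := key i 0 d (by rw [Nat.zero_add, Nat.add_comm]; exact h)
      have h2 : node r 0 = 0 := rfl
      rw [h2] at h1
      have h3 := le_node r' d
      omega
    · obtain ⟨d, rfl⟩ := Nat.exists_eq_add_of_le hij
      have h1 := key j d 0 (by rw [Nat.zero_add, Nat.add_comm]; exact h)
      have h2 : node r' 0 = 0 := rfl
      rw [h2] at h1
      have h3 := le_node r d
      omega
  subst hij
  obtain ⟨m, rfl⟩ := Nat.exists_eq_add_of_lt hi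
  have h1 := key m (n + 1) (n + 1) (by
    have e : n + 1 + m = n + m + 1 := by omega
    rw [e]
    exact h)
  have h2 := key 1 n n h1
  rw [node, node, h2] at h1
  apply hn
  cases h3 : r n <;> cases h4 : r' n <;> simp [h3, h4] at h1 ⊢

/-- A condition: the first coordinates are close to given ones. -/
structure Cond where
  /-- number of coordinates -/
  m : ℕ
  /-- the values -/
  x : ℕ → ℝ
  /-- the distance -/
  ε : ℝ
  pos : 0 < ε
  bd : ∀ n, |x n| ≤ 1
  supp : ∀ n, m ≤ n → x n = 0

/-- The sequences which satisfy the condition. -/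
def Cond.box (c : Cond) : Set (ℕ → ℝ) := {f | ∀ n < c.m, |f n - c.x n| ≤ c.ε}

theorem mem_YS_of_supp {ι : Type*} {q : ι → Ultrafilter ℕ} (hq : ∀ a, (q a : Filter ℕ) ≤ cofinite)
    {x : ℕ → ℝ} (h1 : ∀ n, |x n| ≤ 1) {m : ℕ} (h2 : ∀ n, m ≤ n → x n = 0) : x ∈ YS q := by
  refine ⟨h1, fun a => ?_⟩
  refine (tendsto_const_nhds (x := (0 : ℝ))).congr' ?_
  have h3 : ∀ᶠ n in cofinite, (0 : ℝ) = x n := by
    rw [Filter.eventually_cofinite]
    refine (Set.finite_lt_nat m).subset fun n hn => ?_
    by_contra h4
    exact hn (h2 n (not_lt.1 h4)).symm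
  exact hq a h3

/-- Basic neighbourhoods in the product topology. -/
theorem exists_coord_box {y : ℕ → ℝ} {V : Set (ℕ → ℝ)} (hV : V ∈ 𝓝 y) :
    ∃ m : ℕ, ∃ ε : ℝ, 0 < ε ∧ ∀ f : ℕ → ℝ, (∀ n < m, |f n - y n| ≤ ε) → f ∈ V := by
  rw [nhds_pi, Filter.mem_pi] at hV
  obtain ⟨I, hI, t, ht, hs⟩ := hV
  have h1 : ∀ i, ∃ δ : ℝ, 0 < δ ∧ Metric.closedBall (y i) δ ⊆ t i := fun i =>
    Metric.nhds_basis_closedBall.mem_iff.1 (ht i)
  choose δ hδ hδt using h1
  have h2 : ∀ᶠ ε in 𝓝[>] (0 : ℝ), ∀ i ∈ I, ε < δ i :=
    (eventually_all_finite hI).2 fun i _ => by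
      filter_upwards [Ioo_mem_nhdsGT (hδ i)] with ε hε using hε.2
  obtain ⟨ε, h3, h4⟩ := (h2.and self_mem_nhdsWithin).exists
  obtain ⟨b, hb⟩ := hI.bddAbove
  refine ⟨b + 1, ε, h4, fun f hf => hs fun i hi => hδt i ?_⟩
  rw [Metric.mem_closedBall, Real.dist_eq]
  exact (hf i (Nat.lt_succ_of_le (hb hi))).trans (h3 i hi).le

/-- Extension of conditions into a dense open set. -/
theorem Cond.extend {ι : Type*} {q : ι → Ultrafilter ℕ} (hq : ∀ a, (q a : Filter ℕ) ≤ cofinite)
    (c : Cond) {M : ℕ} {δ : ℝ} (hδ : 0 < δ) {V : Set (YS q)} (hVo : IsOpen V)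
    (hVd : Dense V) : ∃ c' : Cond, M < c'.m ∧
      (∀ f ∈ c'.box, ∀ n < M, |f n - c.x n| ≤ min c.ε δ) ∧ ∀ f : YS q, f.1 ∈ c'.box → f ∈ V := by
  have hmin : 0 < min c.ε δ := lt_min c.pos hδ
  obtain ⟨V', hV', rfl⟩ := isOpen_induced_iff.1 hVo
  let W' : Set (ℕ → ℝ) := ⋂ n ∈ Finset.range M, {f | |f n - c.x n| < min c.ε δ}
  have hW' : IsOpen W' := by
    refine isOpen_biInter_finset fun n _ => ?_
    exact isOpen_lt ((continuous_apply n).sub continuous_const).abs continuous_const
  have hW : ∀ f : ℕ → ℝ, f ∈ W' ↔ ∀ n < M, |f n - c.x n| < min c.ε δ := by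
    intro f
    simp only [W', Set.mem_iInter, Finset.mem_range, Set.mem_ofPred_eq]
  obtain ⟨y, hy1, hy2⟩ := hVd.inter_open_nonempty (Subtype.val ⁻¹' W')
    (hW'.preimage continuous_subtype_val)
    ⟨⟨c.x, mem_YS_of_supp hq c.bd c.supp⟩, (hW _).2 fun n _ => by simpa using hmin⟩
  obtain ⟨m, ε, hε, hbox⟩ := exists_coord_box (y := y.1) (V := W' ∩ V')
    ((hW'.inter hV').mem_nhds ⟨hy1, hy2⟩)
  classical
  let c' : Cond :=
    { m := max m (M + 1)
      x := fun n => if n < max m (M + 1) then y.1 n else 0
      ε := ε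
      pos := hε
      bd := fun n => by
        split_ifs
        · exact y.2.1 n
        · simp
      supp := fun n hn => if_neg (not_lt.2 hn) }
  have hc' : ∀ f ∈ c'.box, f ∈ W' ∩ V' := by
    intro f hf
    refine hbox f fun n hn => ?_
    have h1 : n < max m (M + 1) := lt_max_of_lt_left hn
    have h2 := hf n h1
    change |f n - (if n < max m (M + 1) then y.1 n else 0)| ≤ ε at h2
    rwa [if_pos h1] at h2
  exact ⟨c', lt_max_of_lt_right (Nat.lt_succ_self M),
    fun f hf n hn => ((hW f).1 (hc' f hf).1 n hn).le, fun f hf => (hc' f.1 hf).2⟩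

theorem Cond.mem_box (c : Cond) : c.x ∈ c.box := fun n _ => by simpa using c.pos.le

theorem Cond.isClosed_box (c : Cond) : IsClosed c.box := by
  have e : c.box = ⋂ n ∈ Finset.range c.m, {f : ℕ → ℝ | |f n - c.x n| ≤ c.ε} := by
    ext f
    simp only [Cond.box, Set.mem_ofPred_eq, Set.mem_iInter, Finset.mem_range]
  rw [e]
  refine isClosed_biInter fun n _ => ?_
  exact isClosed_le ((continuous_apply n).sub continuous_const).abs continuous_const

/-- **Baire boxes.** -/
theorem baire_YS {ι : Type*} [Countable ι] (q : ι → Ultrafilter ℕ)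
    (hq : ∀ a, (q a : Filter ℕ) ≤ cofinite) : BaireSpace (YS q) where
  baire_property := by
    intro U hUo hUd
    -- decreasing dense open sets
    let V : ℕ → Set (YS q) := fun k => Nat.rec (U 0) (fun k s => s ∩ U (k + 1)) k
    have hV : ∀ k, V (k + 1) = V k ∩ U (k + 1) := fun k => rfl
    have hVo : ∀ k, IsOpen (V k) := by
      intro k
      induction k with
      | zero => exact hUo 0
      | succ k ih => exact ih.inter (hUo _)
    have hVd : ∀ k, Dense (V k) := by
      intro k
      induction k with
      | zero => exact hUd 0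
      | succ k ih => exact ih.inter_of_isOpen_left (hUd _) (hVo k)
    have hVU : ∀ k i, i ≤ k → V k ⊆ U i := by
      intro k
      induction k with
      | zero =>
        intro i hi
        obtain rfl : i = 0 := by omega
        exact subset_rfl
      | succ k ih =>
        intro i hi
        rcases Nat.lt_or_ge k i with h1 | h1
        · obtain rfl : i = k + 1 := by omega
          exact Set.inter_subset_right
        · exact Set.inter_subset_left.trans (ih i h1)
    rw [dense_iff_inter_open]
    intro W hWo hWn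
    -- the first condition
    obtain ⟨x, hx⟩ := hWn
    obtain ⟨W', hW', rfl⟩ := isOpen_induced_iff.1 hWo
    obtain ⟨m, ε, hε, hbox⟩ := exists_coord_box (y := x.1) (V := W') (hW'.mem_nhds hx)
    classical
    let c0 : Cond :=
      { m := m
        x := fun n => if n < m then x.1 n else 0
        ε := ε
        pos := hε
        bd := fun n => by
          split_ifs
          · exact x.2.1 n
          · simp
        supp := fun n hn => if_neg (not_lt.2 hn) }
    have hc0 : ∀ f ∈ c0.box, f ∈ W' := by
      intro f hf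
      refine hbox f fun n hn => ?_
      have h2 := hf n hn
      change |f n - (if n < m then x.1 n else 0)| ≤ ε at h2
      rwa [if_pos hn] at h2
    -- the tree of conditions; `c (k + 1)` extends the condition of the parent
    obtain ⟨c, hcz, hc⟩ := exists_table
      (fun k (a b c' : Cond) => a.m ≤ b.m → (b.m < c'.m ∧
        (∀ f ∈ c'.box, ∀ n < b.m, |f n - a.x n| ≤ min a.ε (1 / ((k : ℝ) + 1))) ∧
        ∀ f : YS q, f.1 ∈ c'.box → f ∈ V k)) c0
      (fun k a b => by
        by_cases hab : a.m ≤ b.m
        · obtain ⟨c', h1, h2, h3⟩ := a.extend hq (M := b.m) (δ := 1 / ((k : ℝ) + 1)) (by positivity)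
            (hVo k) (hVd k)
          exact ⟨c', fun _ => ⟨h1, h2, h3⟩⟩
        · exact ⟨a, fun h => absurd h hab⟩)
      (fun k => k / 2) (fun k => Nat.div_le_self k 2)
    have hmono : ∀ k, (∀ i ≤ k, (c i).m ≤ (c k).m) := by
      intro k
      induction k with
      | zero =>
        intro i hi
        obtain rfl : i = 0 := by omega
        exact le_rfl
      | succ k ih =>
        intro i hi
        rcases Nat.lt_or_ge k i with h1 | h1
        · obtain rfl : i = k + 1 := by omega
          exact le_rfl
        · exact (ih i h1).trans (hc k (ih _ (Nat.div_le_self k 2))).1.le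
    have hlt : ∀ k, (c k).m < (c (k + 1)).m := fun k =>
      (hc k (hmono k _ (Nat.div_le_self k 2))).1
    have hst : StrictMono fun k => (c k).m := strictMono_nat_of_lt_succ hlt
    -- the limits along the branches
    have hpar : ∀ (r : ℕ → Bool) j, ∃ k, node r (j + 1) = k + 1 ∧ k / 2 = node r j := by
      intro r j
      refine ⟨node r (j + 1) - 1, ?_, node_par r j⟩
      have := node_lt r j
      omega
    have hnest : ∀ (r : ℕ → Bool) j, (c (node r (j + 1))).box ⊆ (c (node r j)).box := by
      intro r j f hf n hn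
      obtain ⟨k, hk, hk'⟩ := hpar r j
      rw [hk] at hf
      obtain ⟨-, h2, -⟩ := hc k (hmono k _ (Nat.div_le_self k 2))
      rw [hk'] at h2
      refine (h2 f hf n (hn.trans_le ?_)).trans (min_le_left _ _)
      rw [← hk']
      exact hmono k _ (Nat.div_le_self k 2)
    have hK : IsCompact {f : ℕ → ℝ | ∀ n, |f n| ≤ 1} := by
      have e : {f : ℕ → ℝ | ∀ n, |f n| ≤ 1} = Set.pi Set.univ fun _ => Set.Icc (-1 : ℝ) 1 := by
        ext f
        simp only [Set.mem_ofPred_eq, Set.mem_pi, Set.mem_univ, true_imp_iff, Set.mem_Icc, abs_le]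
      rw [e]
      exact isCompact_univ_pi fun _ => isCompact_Icc
    have hlim : ∀ r : ℕ → Bool, ∃ f : ℕ → ℝ, (∀ n, |f n| ≤ 1) ∧ ∀ j, f ∈ (c (node r j)).box := by
      intro r
      obtain ⟨f, hf⟩ := IsCompact.nonempty_iInter_of_sequence_nonempty_isCompact_isClosed
        (fun j => {f : ℕ → ℝ | ∀ n, |f n| ≤ 1} ∩ (c (node r j)).box)
        (fun j => Set.inter_subset_inter_right _ (hnest r j))
        (fun j => ⟨_, (c (node r j)).bd, (c (node r j)).mem_box⟩)
        (hK.inter_right (c (node r 0)).isClosed_box)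
        (fun j => hK.isClosed.inter (c (node r j)).isClosed_box)
      rw [Set.mem_iInter] at hf
      exact ⟨f, (hf 0).1, fun j => (hf j).2⟩
    choose F hF1 hF using hlim
    -- the intervals
    let L : ℕ → ℕ := fun k => Nat.rec 0 (fun k _ => (c k).m) k
    have hLs : ∀ k, L (k + 1) = (c k).m := fun k => rfl
    let Sr : (ℕ → Bool) → Set ℕ := fun r => ⋃ j, Set.Ico (L (node r j)) (c (node r j)).m
    have hfind : ∀ n, ∃ k, n ∈ Set.Ico (L k) (c k).m := by
      intro n
      have hex : ∃ k, n < (c k).m := ⟨n + 1, Nat.lt_of_lt_of_le (Nat.lt_succ_self n) (hst.le_apply (x := n + 1))⟩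
      refine ⟨Nat.find hex, ?_, Nat.find_spec hex⟩
      rcases h1 : Nat.find hex with _ | k
      · exact Nat.zero_le n
      · rw [hLs]
        exact not_lt.1 (Nat.find_min hex (by omega))
    -- smallness
    have hsmall : ∀ (r : ℕ → Bool) n k, n ∈ Set.Ico (L k) (c k).m → n ∉ Sr r →
        |F r n| ≤ 1 / ((k : ℝ) + 1) := by
      intro r n k hn hnS
      have hk : ∀ j, node r j ≠ k := by
        rintro j rfl
        exact hnS (Set.mem_iUnion.2 ⟨j, hn⟩)
      -- the last node before `k`
      have hex : ∃ j, k < node r j := ⟨k + 1, le_node r (k + 1)⟩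
      obtain ⟨j, hj⟩ : ∃ j, Nat.find hex = j + 1 := by
        rcases h1 : Nat.find hex with _ | j
        · have h2 := Nat.find_spec hex
          rw [h1] at h2
          exact absurd h2 (Nat.not_lt_zero _)
        · exact ⟨j, rfl⟩
      have h1 : k < node r (j + 1) := by
        rw [← hj]
        exact Nat.find_spec hex
      have h2 : node r j < k := by
        have h3 := Nat.find_min hex (m := j) (by omega)
        have h4 := hk j
        omega
      obtain ⟨i, hi, hi'⟩ := hpar r j
      have h3 := (hc i (hmono i _ (Nat.div_le_self i 2))).2.1 (F r)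
        (by rw [← hi]; exact hF r (j + 1)) n
        (hn.2.trans_le (hst.monotone (by omega : k ≤ i)))
      have h4 : (c (i / 2)).x n = 0 := by
        rw [hi']
        refine (c (node r j)).supp n (le_trans ?_ hn.1)
        obtain ⟨k', rfl⟩ : ∃ k', k = k' + 1 := ⟨k - 1, by omega⟩
        rw [hLs]
        exact hst.monotone (by omega : node r j ≤ k')
      rw [h4, sub_zero] at h3
      refine h3.trans ((min_le_right _ _).trans ?_)
      have h5 : (k : ℝ) ≤ i := by exact_mod_cast (by omega : k ≤ i)
      exact one_div_le_one_div_of_le (by positivity) (by linarith)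
    -- almost disjoint
    have hfin : ∀ r r' : ℕ → Bool, r ≠ r' → (Sr r ∩ Sr r').Finite := by
      intro r r' hrr
      obtain ⟨n, hn⟩ := Function.ne_iff.1 hrr
      refine (Set.finite_lt_nat (c (node r n)).m).subset ?_
      rintro i ⟨h1, h2⟩
      obtain ⟨j, hj⟩ := Set.mem_iUnion.1 h1
      obtain ⟨j', hj'⟩ := Set.mem_iUnion.1 h2
      have huniq : ∀ a b, i ∈ Set.Ico (L a) (c a).m → i ∈ Set.Ico (L b) (c b).m → a ≤ b := by
        intro a b ha hb
        by_contra hab
        push Not at hab
        obtain ⟨a', rfl⟩ : ∃ a', a = a' + 1 := ⟨a - 1, by omega⟩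
        have h5 := ha.1
        rw [hLs] at h5
        have h6 := hb.2
        have h7 : (c b).m ≤ (c a').m := hst.monotone (by omega : b ≤ a')
        omega
      have h3 : node r j = node r' j' := le_antisymm (huniq _ _ hj hj') (huniq _ _ hj' hj)
      have h4 := node_common hn h3
      exact hj.2.trans_le (hst.monotone ((node_strictMono r).monotone h4))
    -- a branch which avoids all ultrafilters
    obtain ⟨r, hr⟩ : ∃ r : ℕ → Bool, ∀ a, Sr r ∉ (q a : Filter ℕ) := by
      by_contra hcon
      push Not at hcon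
      choose a ha using hcon
      have hinj : Function.Injective a := by
        intro r r' hrr
        by_contra hne
        have h1 : Sr r ∩ Sr r' ∈ (q (a r) : Filter ℕ) := by
          refine Filter.inter_mem (ha r) ?_
          rw [hrr]
          exact ha r'
        have h2 : (Sr r ∩ Sr r')ᶜ ∈ (q (a r) : Filter ℕ) :=
          hq (a r) (hfin r r' hne).compl_mem_cofinite
        have h3 := Filter.inter_mem h1 h2
        rw [Set.inter_compl_self] at h3
        exact (q (a r)).neBot.ne (Filter.empty_mem_iff_bot.1 h3)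
      have h4 : Countable (ℕ → Bool) := hinj.countable
      obtain ⟨g, hg⟩ := exists_surjective_nat (ℕ → Bool)
      obtain ⟨n, hn⟩ := hg fun n => !(g n n)
      have h5 := congrFun hn n
      cases h6 : g n n <;> simp [h6] at h5
    -- the limit is in the space
    have hmem : F r ∈ YS q := by
      refine ⟨hF1 r, fun a => ?_⟩
      have h1 : (Sr r)ᶜ ∈ (q a : Filter ℕ) := Ultrafilter.compl_mem_iff_notMem.2 (hr a)
      rw [Metric.tendsto_nhds]
      intro ε hε
      obtain ⟨K, hK⟩ := exists_nat_one_div_lt hε
      have h2 : ∀ᶠ n in cofinite, (c K).m ≤ n := by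
        rw [Filter.eventually_cofinite]
        simpa using Set.finite_lt_nat (c K).m
      filter_upwards [h1, hq a h2] with n hn1 hn2
      obtain ⟨k, hk⟩ := hfind n
      rw [Real.dist_eq, sub_zero]
      refine (hsmall r n k hk hn1).trans_lt (lt_of_le_of_lt ?_ hK)
      have h3 : K < k := by
        by_contra h4
        push Not at h4
        have h5 : (c k).m ≤ (c K).m := hst.monotone h4
        have h6 := hk.2
        change (c K).m ≤ n at hn2
        omega
      have h5 : (K : ℝ) ≤ k := by exact_mod_cast h3.le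
      exact one_div_le_one_div_of_le (by positivity) (by linarith)
    refine ⟨⟨F r, hmem⟩, hc0 _ ?_, Set.mem_iInter.2 fun i => ?_⟩
    · have h1 := hF r 0
      have h2 : node r 0 = 0 := rfl
      rwa [h2, hcz] at h1
    · obtain ⟨k, hk, hk'⟩ := hpar r i
      have h1 := (hc k (hmono k _ (Nat.div_le_self k 2))).2.2 ⟨F r, hmem⟩
        (by rw [← hk]; exact hF r (i + 1))
      refine hVU k i ?_ h1
      have := le_node r (i + 1)
      omega

end Pool.Agent.CPB
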