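import Mathlib

/-!
# Continuous functions on dense subspaces of `ℝ^I` depend on countably many coordinates
-/

set_option autoImplicit false

namespace Pool.Agent.CPB

open Set MeasureTheory

universe u v

variable {I : Type u} {Y : Type v}

/-- basic open sets of `ℝ^I`: finitely many coordinates in open intervals -/
def box (s : Finset I × (I → ℝ) × (I → ℝ)) : Set (I → ℝ) :=
  Set.pi (s.1 : Set I) (fun i => Ioo (s.2.1 i) (s.2.2 i))

lemma mem_box {s : Finset I × (I → ℝ) × (I → ℝ)} {x : I → ℝ} :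
    x ∈ box s ↔ ∀ i ∈ s.1, s.2.1 i < x i ∧ x i < s.2.2 i := by
  simp only [box, Set.mem_pi, Finset.mem_coe, mem_Ioo]

lemma box_open (s : Finset I × (I → ℝ) × (I → ℝ)) : IsOpen (box s) :=
  isOpen_set_pi (Finset.finite_toSet _) (fun _ _ => isOpen_Ioo)

/-- the standard Gaussian measure on every coordinate -/
noncomputable def γ (I : Type u) : Measure (I → ℝ) :=
  Measure.infinitePi (fun _ => ProbabilityTheory.gaussianReal 0 1)

lemma box_pos {s : Finset I × (I → ℝ) × (I → ℝ)} (h : (box s).Nonempty) : 0 < γ I (box s) := by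
  obtain ⟨x, hx⟩ := h
  rw [mem_box] at hx
  rw [γ, box, Measure.infinitePi_pi _ (fun _ _ => measurableSet_Ioo)]
  rw [CanonicallyOrderedAdd.prod_pos]
  intro i hi
  by_contra hcon
  rw [not_lt, nonpos_iff_eq_zero] at hcon
  have h1 := ProbabilityTheory.gaussianReal_absolutelyContinuous' 0 (v := 1) one_ne_zero hcon
  rw [Real.volume_Ioo, ENNReal.ofReal_eq_zero] at h1
  have := hx i hi
  linarith

lemma countable_of_disjoint {𝓑 : Set (Finset I × (I → ℝ) × (I → ℝ))}
    (hne : ∀ s ∈ 𝓑, (box s).Nonempty) (hd : 𝓑.PairwiseDisjoint box) : 𝓑.Countable := by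
  have : IsProbabilityMeasure (γ I) := by unfold γ; infer_instance
  have hc : Set.Countable {i : 𝓑 | 0 < γ I (box i)} := by
    apply Measure.countable_meas_pos_of_disjoint_of_meas_iUnion_ne_top
    · intro i
      exact MeasurableSet.pi (Finset.countable_toSet _) (fun _ _ => measurableSet_Ioo)
    · intro i j hij
      exact hd i.2 j.2 (fun h => hij (Subtype.ext h))
    · exact measure_ne_top _ _
  have : {i : 𝓑 | 0 < γ I (box i)} = Set.univ := by
    ext i
    simp only [mem_ofPred_eq, mem_univ, iff_true]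
    exact box_pos (hne i i.2)
  rw [this, Set.countable_univ_iff] at hc
  exact hc

/-- the intersection of two boxes -/
noncomputable def inter [DecidableEq I] (s t : Finset I × (I → ℝ) × (I → ℝ)) :
    Finset I × (I → ℝ) × (I → ℝ) :=
  (s.1 ∪ t.1,
    fun i => if i ∈ s.1 then (if i ∈ t.1 then max (s.2.1 i) (t.2.1 i) else s.2.1 i) else t.2.1 i,
    fun i => if i ∈ s.1 then (if i ∈ t.1 then min (s.2.2 i) (t.2.2 i) else s.2.2 i) else t.2.2 i)

lemma box_inter [DecidableEq I] (s t : Finset I × (I → ℝ) × (I → ℝ)) :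
    box (inter s t) = box s ∩ box t := by
  ext x
  simp only [mem_inter_iff, mem_box, inter, Finset.mem_union]
  constructor
  · intro h
    refine ⟨fun i hi => ?_, fun i hi => ?_⟩
    · have := h i (Or.inl hi)
      simp only [hi, if_true] at this
      split_ifs at this
      · exact ⟨(le_max_left _ _).trans_lt this.1, this.2.trans_le (min_le_left _ _)⟩
      · exact this
    · have := h i (Or.inr hi)
      simp only [hi, if_true] at this
      split_ifs at this
      · exact ⟨(le_max_right _ _).trans_lt this.1, this.2.trans_le (min_le_right _ _)⟩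
      · exact this
  · rintro ⟨h1, h2⟩ i hi
    by_cases h3 : i ∈ s.1
    · by_cases h4 : i ∈ t.1
      · simp only [h3, h4, if_true]
        exact ⟨max_lt (h1 i h3).1 (h2 i h4).1, lt_min (h1 i h3).2 (h2 i h4).2⟩
      · simp only [h3, h4, if_true, if_false]
        exact h1 i h3
    · have h4 : i ∈ t.1 := hi.resolve_left h3
      simp only [h3, if_false]
      exact h2 i h4

lemma exists_box {x : I → ℝ} {O : Set (I → ℝ)} (hO : IsOpen O) (hx : x ∈ O) :
    ∃ s, x ∈ box s ∧ box s ⊆ O := by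
  rw [isOpen_pi_iff] at hO
  obtain ⟨J, u, hu, hsub⟩ := hO x hx
  have : ∀ i ∈ J, ∃ a b : ℝ, a < x i ∧ x i < b ∧ Ioo a b ⊆ u i := by
    intro i hi
    obtain ⟨l, r, h1, h2⟩ := mem_nhds_iff_exists_Ioo_subset.1 ((hu i hi).1.mem_nhds (hu i hi).2)
    exact ⟨l, r, h1.1, h1.2, h2⟩
  choose! a b h1 h2 h3 using this
  refine ⟨(J, a, b), ?_, ?_⟩
  · rw [mem_box]
    exact fun i hi => ⟨h1 i hi, h2 i hi⟩
  · intro y hy
    rw [mem_box] at hy
    apply hsub
    intro i hi
    exact h3 i hi (hy i hi)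

/-- points outside the closure of an open subset `U` of a dense subspace are separated from `U`
by a box with finitely many coordinates in a fixed countable set -/
lemma closure_dep [TopologicalSpace Y] (e : Y → (I → ℝ)) (he : Topology.IsInducing e)
    (hd : DenseRange e) {U : Set Y} (hU : IsOpen U) :
    ∃ A : Set I, A.Countable ∧ ∀ y', y' ∉ closure U →
      ∃ C : Finset I × (I → ℝ) × (I → ℝ), (∀ i ∈ C.1, i ∈ A) ∧ e y' ∈ box C ∧
        ∀ y ∈ U, e y ∉ box C := by
  classical
  let good : Set (Finset I × (I → ℝ) × (I → ℝ)) := {s | (box s).Nonempty ∧ e ⁻¹' (box s) ⊆ U}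
  obtain ⟨𝓑, hmax⟩ := zorn_subset {𝓑 : Set (Finset I × (I → ℝ) × (I → ℝ)) |
      𝓑 ⊆ good ∧ 𝓑.PairwiseDisjoint box} (by
    intro c hc hchain
    refine ⟨⋃₀ c, ⟨?_, ?_⟩, fun s hs => Set.subset_sUnion_of_mem hs⟩
    · exact Set.sUnion_subset fun s hs => (hc hs).1
    · intro s hs t ht hne
      obtain ⟨S, hS, hs⟩ := hs
      obtain ⟨T, hT, ht⟩ := ht
      rcases hchain.total hS hT with h | h
      · exact (hc hT).2 (h hs) ht hne
      · exact (hc hS).2 hs (h ht) hne)
  obtain ⟨hgood, hdisj⟩ := hmax.prop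
  have hcount : 𝓑.Countable := countable_of_disjoint (fun s hs => (hgood hs).1) hdisj
  refine ⟨⋃ s ∈ 𝓑, (s.1 : Set I), hcount.biUnion fun s _ => s.1.countable_toSet, ?_⟩
  intro y' hy'
  obtain ⟨O', hO', hO'e⟩ := he.isOpen_iff.1 (isClosed_closure (s := U)).isOpen_compl
  have hy'O : e y' ∈ O' := by
    have : y' ∈ e ⁻¹' O' := by rw [hO'e]; exact hy'
    exact this
  obtain ⟨C, hC, hCO⟩ := exists_box hO' hy'O
  -- `C'`: the restriction of `C` to the coordinates in `A`
  let C' : Finset I × (I → ℝ) × (I → ℝ) :=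
    (C.1.filter (fun i => i ∈ ⋃ s ∈ 𝓑, (s.1 : Set I)), C.2.1, C.2.2)
  refine ⟨C', fun i hi => (Finset.mem_filter.1 hi).2, ?_, ?_⟩
  · rw [mem_box]
    intro i hi
    obtain ⟨hi1, hi2⟩ := Finset.mem_filter.1 hi
    exact mem_box.1 hC i hi1
  intro y hy hyC'
  obtain ⟨U', hU', rfl⟩ := he.isOpen_iff.1 hU
  obtain ⟨D, hD, hDU⟩ := exists_box hU' hy
  -- some member of `𝓑` meets `D ∩ C'`
  obtain ⟨B, hB, hBD⟩ : ∃ B ∈ 𝓑, (box B ∩ box C').Nonempty := by
    by_contra hcon
    push Not at hcon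
    have hDg : inter D C' ∈ good := by
      refine ⟨⟨e y, ?_⟩, ?_⟩
      · rw [box_inter]; exact ⟨hD, hyC'⟩
      · rw [box_inter]
        intro z hz
        exact hDU hz.1
    have hins : insert (inter D C') 𝓑 ∈ {𝓑 : Set (Finset I × (I → ℝ) × (I → ℝ)) |
        𝓑 ⊆ good ∧ 𝓑.PairwiseDisjoint box} := by
      refine ⟨Set.insert_subset hDg hgood, ?_⟩
      rw [Set.pairwiseDisjoint_insert]
      refine ⟨hdisj, ?_⟩
      intro B hB _
      rw [box_inter, Set.disjoint_iff_inter_eq_empty, Set.eq_empty_iff_forall_notMem]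
      rintro z ⟨hz1, hz2⟩
      have := hcon B hB
      rw [Set.eq_empty_iff_forall_notMem] at this
      exact this z ⟨hz2, hz1.2⟩
    have hmem : inter D C' ∈ 𝓑 := by
      rw [hmax.eq_of_subset hins (Set.subset_insert _ _)]
      exact Set.mem_insert _ _
    have := hcon _ hmem
    rw [Set.eq_empty_iff_forall_notMem] at this
    refine this (e y) ⟨?_, hyC'⟩
    rw [box_inter]; exact ⟨hD, hyC'⟩
  obtain ⟨x, hxB, hxC'⟩ := hBD
  -- move `x` into `C`
  let x' : I → ℝ := fun i => if i ∈ ⋃ s ∈ 𝓑, (s.1 : Set I) then x i else e y' i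
  have hx'B : x' ∈ box B := by
    rw [mem_box]
    intro i hi
    have : i ∈ ⋃ s ∈ 𝓑, (s.1 : Set I) := Set.mem_biUnion hB hi
    simp only [x', if_pos this]
    exact mem_box.1 hxB i hi
  have hx'C : x' ∈ box C := by
    rw [mem_box]
    intro i hi
    by_cases h : i ∈ ⋃ s ∈ 𝓑, (s.1 : Set I)
    · simp only [x', if_pos h]
      exact mem_box.1 hxC' i (Finset.mem_filter.2 ⟨hi, h⟩)
    · simp only [x', if_neg h]
      exact mem_box.1 hC i hi
  obtain ⟨z, hz⟩ := hd.exists_mem_open ((box_open B).inter (box_open C)) ⟨x', hx'B, hx'C⟩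
  have h1 : z ∈ e ⁻¹' O' := hCO hz.2
  rw [hO'e] at h1
  exact h1 (subset_closure ((hgood hB).2 hz.1))

/-- **Countable dependence, continuously.** A continuous real function on a dense subspace of
`ℝ^I` is continuous for the topology of a countable set of coordinates. -/
theorem countable_cont [TopologicalSpace Y] (e : Y → (I → ℝ)) (he : Topology.IsInducing e)
    (hd : DenseRange e) (F : Y → ℝ) (hF : Continuous F) :
    ∃ A : Set I, A.Countable ∧ ∀ y, ∀ ε > 0, ∃ J : Finset I, (∀ i ∈ J, i ∈ A) ∧ ∃ δ > 0,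
      ∀ z, (∀ i ∈ J, |e z i - e y i| < δ) → |F z - F y| < ε := by
  have h1 : ∀ r : ℚ, ∃ A : Set I, A.Countable ∧ ∀ y', y' ∉ closure {y | F y < r} →
      ∃ C : Finset I × (I → ℝ) × (I → ℝ), (∀ i ∈ C.1, i ∈ A) ∧ e y' ∈ box C ∧
        ∀ y ∈ {y | F y < r}, e y ∉ box C := fun r =>
    closure_dep e he hd (isOpen_lt hF continuous_const)
  have h2 : ∀ r : ℚ, ∃ A : Set I, A.Countable ∧ ∀ y', y' ∉ closure {y | r < F y} →
      ∃ C : Finset I × (I → ℝ) × (I → ℝ), (∀ i ∈ C.1, i ∈ A) ∧ e y' ∈ box C ∧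
        ∀ y ∈ {y | r < F y}, e y ∉ box C := fun r =>
    closure_dep e he hd (isOpen_lt continuous_const hF)
  choose A1 hA1 hA1' using h1
  choose A2 hA2 hA2' using h2
  -- a box contains a `δ`-ball
  have hball : ∀ (C : Finset I × (I → ℝ) × (I → ℝ)) (y : Y), e y ∈ box C →
      ∃ δ > 0, ∀ z, (∀ i ∈ C.1, |e z i - e y i| < δ) → e z ∈ box C := by
    intro C y hy
    rw [mem_box] at hy
    rcases C.1.eq_empty_or_nonempty with hC | hC
    · refine ⟨1, one_pos, fun z _ => ?_⟩
      rw [mem_box]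
      intro i hi
      rw [hC] at hi
      exact absurd hi (Finset.notMem_empty i)
    · let g : I → ℝ := fun i => min (e y i - C.2.1 i) (C.2.2 i - e y i)
      refine ⟨C.1.inf' hC g, ?_, ?_⟩
      · rw [gt_iff_lt, Finset.lt_inf'_iff]
        intro i hi
        have := hy i hi
        exact lt_min (by linarith) (by linarith)
      · intro z hz
        rw [mem_box]
        intro i hi
        have h3 := hz i hi
        have h4 : C.1.inf' hC g ≤ g i := Finset.inf'_le _ hi
        have h5 : g i ≤ e y i - C.2.1 i := min_le_left _ _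
        have h6 : g i ≤ C.2.2 i - e y i := min_le_right _ _
        have h7 := abs_lt.1 h3
        exact ⟨by linarith, by linarith⟩
  refine ⟨(⋃ r, A1 r) ∪ ⋃ r, A2 r, (Set.countable_iUnion hA1).union (Set.countable_iUnion hA2), ?_⟩
  intro y ε hε
  obtain ⟨r1, hr1, hr1'⟩ := exists_rat_btwn (show F y - ε < F y by linarith)
  obtain ⟨r2, hr2, hr2'⟩ := exists_rat_btwn (show F y < F y + ε by linarith)
  have hc1 : y ∉ closure {y | F y < r1} := by
    intro h
    have : closure {y | F y < r1} ⊆ {y | F y ≤ r1} :=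
      closure_minimal (fun z (hz : F z < r1) => (le_of_lt hz : F z ≤ r1))
        (isClosed_le hF continuous_const)
    have h3 : F y ≤ r1 := this h
    linarith
  have hc2 : y ∉ closure {y | r2 < F y} := by
    intro h
    have : closure {y | r2 < F y} ⊆ {y | r2 ≤ F y} :=
      closure_minimal (fun z (hz : r2 < F z) => (le_of_lt hz : r2 ≤ F z))
        (isClosed_le continuous_const hF)
    have h3 : r2 ≤ F y := this h
    linarith
  obtain ⟨C1, hC1, hyC1, hC1'⟩ := hA1' r1 y hc1
  obtain ⟨C2, hC2, hyC2, hC2'⟩ := hA2' r2 y hc2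
  obtain ⟨δ1, hδ1, hb1⟩ := hball C1 y hyC1
  obtain ⟨δ2, hδ2, hb2⟩ := hball C2 y hyC2
  classical
  refine ⟨C1.1 ∪ C2.1, ?_, min δ1 δ2, lt_min hδ1 hδ2, ?_⟩
  · intro i hi
    rcases Finset.mem_union.1 hi with h | h
    · exact Or.inl (Set.mem_iUnion.2 ⟨r1, hC1 i h⟩)
    · exact Or.inr (Set.mem_iUnion.2 ⟨r2, hC2 i h⟩)
  · intro z hz
    have e1 : ¬ F z < r1 := fun h => hC1' z h
      (hb1 z (fun i hi => (hz i (Finset.mem_union_left _ hi)).trans_le (min_le_left _ _)))
    have e2 : ¬ r2 < F z := fun h => hC2' z h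
      (hb2 z (fun i hi => (hz i (Finset.mem_union_right _ hi)).trans_le (min_le_right _ _)))
    rw [not_lt] at e1 e2
    rw [abs_lt]
    exact ⟨by linarith, by linarith⟩

/-- sequential form -/
theorem countable_seq [TopologicalSpace Y] (e : Y → (I → ℝ)) (he : Topology.IsInducing e)
    (hd : DenseRange e) (F : Y → ℝ) (hF : Continuous F) :
    ∃ A : Set I, A.Countable ∧ ∀ (y : Y) (z : ℕ → Y),
      (∀ i ∈ A, Filter.Tendsto (fun n => e (z n) i) Filter.atTop (nhds (e y i))) →
        Filter.Tendsto (fun n => F (z n)) Filter.atTop (nhds (F y)) := by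
  obtain ⟨A, hA, hA'⟩ := countable_cont e he hd F hF
  refine ⟨A, hA, fun y z hz => ?_⟩
  rw [Metric.tendsto_atTop]
  intro ε hε
  obtain ⟨J, hJ, δ, hδ, h⟩ := hA' y ε hε
  have : ∀ i ∈ J, ∀ᶠ n in Filter.atTop, |e (z n) i - e y i| < δ := by
    intro i hi
    have := (Metric.tendsto_atTop.1 (hz i (hJ i hi))) δ hδ
    obtain ⟨N, hN⟩ := this
    filter_upwards [Filter.eventually_ge_atTop N] with n hn
    have := hN n hn
    rwa [Real.dist_eq] at this
  have h2 := (Finset.eventually_all J).2 this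
  obtain ⟨N, hN⟩ := Filter.eventually_atTop.1 h2
  refine ⟨N, fun n hn => ?_⟩
  rw [Real.dist_eq]
  exact h (z n) (hN n hn)

end Pool.Agent.CPB
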