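import Mathlib
import Pool.Agent.CPB.Dep

/-!
# The space `X = C_p(βω)` of the frozen text, ultrafilters, countable closed sets of coordinates
-/

set_option autoImplicit false

namespace Pool.Agent.CPB

open Set Filter Topology

/-- `C_p(βω)` as in the frozen statement -/
abbrev X : Type := {f : StoneCech ℕ → ℝ // Continuous f}

/-- the points of `ω` in `βω` -/
abbrev un (n : ℕ) : StoneCech ℕ := stoneCechUnit n

/-- bounded sequences extend to `βω` -/
theorem exists_ext (a : ℕ → ℝ) (C : ℝ) (ha : ∀ n, |a n| ≤ C) :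
    ∃ f : X, (∀ n, f.1 (un n) = a n) ∧ ∀ q, |f.1 q| ≤ C := by
  let b : ℕ → Icc (-C) C := fun n => ⟨a n, abs_le.1 (ha n)⟩
  have hb : Continuous b := continuous_of_discreteTopology
  let g : StoneCech ℕ → Icc (-C) C := stoneCechExtend hb
  have hg : Continuous g := continuous_stoneCechExtend hb
  refine ⟨⟨fun q => (g q : ℝ), continuous_subtype_val.comp hg⟩, ?_, ?_⟩
  · intro n
    show ((stoneCechExtend hb (stoneCechUnit n) : Icc (-C) C) : ℝ) = a n
    rw [stoneCechExtend_stoneCechUnit]
  · intro q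
    exact abs_le.2 (g q).2

/-- elements of `X` are bounded -/
theorem bounded (f : X) : ∃ C : ℝ, ∀ q, |f.1 q| ≤ C := by
  obtain ⟨C, hC⟩ := isCompact_univ.exists_bound_of_continuousOn (f := f.1) f.2.continuousOn
  exact ⟨C, fun q => hC q (mem_univ q)⟩

/-- elements of `X` are determined by the values on `ω` -/
theorem ext_un {f g : X} (h : ∀ n, f.1 (un n) = g.1 (un n)) : f = g := by
  apply Subtype.ext
  exact DenseRange.equalizer denseRange_stoneCechUnit f.2 g.2 (funext h)

/-- bounds on `ω` are bounds on `βω` -/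
theorem abs_le_of_un {f : X} {C : ℝ} (h : ∀ n, |f.1 (un n)| ≤ C) (q : StoneCech ℕ) :
    |f.1 q| ≤ C := by
  have hcl : IsClosed {q : StoneCech ℕ | |f.1 q| ≤ C} :=
    isClosed_le (continuous_abs.comp f.2) continuous_const
  exact denseRange_stoneCechUnit.induction_on q hcl h

/-- clopen sets: characteristic functions of subsets of `ω` -/
theorem exists_char (S : Set ℕ) : ∃ f : X, (∀ n ∈ S, f.1 (un n) = 1) ∧
    (∀ n ∉ S, f.1 (un n) = 0) ∧ ∀ q, f.1 q = 1 ∨ f.1 q = 0 := by
  classical
  obtain ⟨f, hf, -⟩ := exists_ext (fun n => if n ∈ S then 1 else 0) 1 (by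
    intro n
    split_ifs <;> simp)
  refine ⟨f, fun n hn => by rw [hf, if_pos hn], fun n hn => by rw [hf, if_neg hn], ?_⟩
  intro q
  have hcl : IsClosed {q : StoneCech ℕ | f.1 q = 1 ∨ f.1 q = 0} :=
    (isClosed_eq f.2 continuous_const).union (isClosed_eq f.2 continuous_const)
  refine denseRange_stoneCechUnit.induction_on q hcl ?_
  intro n
  show f.1 (un n) = 1 ∨ f.1 (un n) = 0
  rw [hf]
  split_ifs
  · exact Or.inl rfl
  · exact Or.inr rfl

/-- the trace of the neighbourhood filter of `q` on `ω`, an ultrafilter -/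
noncomputable def ufil (q : StoneCech ℕ) : Ultrafilter ℕ :=
  Ultrafilter.ofComplNotMemIff (comap un (𝓝 q)) (by
    intro S
    have hne : NeBot (comap un (𝓝 q)) := by
      apply comap_neBot
      intro t ht
      obtain ⟨x, hx, n, rfl⟩ := mem_closure_iff_nhds.1 (denseRange_stoneCechUnit q) t ht
      exact ⟨n, hx⟩
    constructor
    · intro h
      obtain ⟨f, h1, h0, hq⟩ := exists_char S
      rcases hq q with h2 | h2
      · have : {x : StoneCech ℕ | 0 < f.1 x} ∈ 𝓝 q :=
          (isOpen_lt continuous_const f.2).mem_nhds (by show 0 < f.1 q; rw [h2]; exact one_pos)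
        refine mem_of_superset (preimage_mem_comap this) ?_
        intro n hn
        by_contra hnS
        have h3 : 0 < f.1 (un n) := hn
        rw [h0 n hnS] at h3
        exact lt_irrefl _ h3
      · exfalso
        apply h
        have : {x : StoneCech ℕ | f.1 x < 1} ∈ 𝓝 q :=
          (isOpen_lt f.2 continuous_const).mem_nhds (by show f.1 q < 1; rw [h2]; exact one_pos)
        refine mem_of_superset (preimage_mem_comap this) ?_
        intro n hn hnS
        have h3 : f.1 (un n) < 1 := hn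
        rw [h1 n hnS] at h3
        exact lt_irrefl _ h3
    · intro h hc
      have := inter_mem h hc
      rw [inter_compl_self] at this
      exact empty_notMem _ this)

theorem ufil_tendsto (f : X) (q : StoneCech ℕ) :
    Tendsto (fun n => f.1 (un n)) (ufil q) (𝓝 (f.1 q)) :=
  (f.2.tendsto q).comp tendsto_comap

theorem value_eq_of_tendsto {f : X} {q : StoneCech ℕ} {c : ℝ}
    (h : Tendsto (fun n => f.1 (un n)) (ufil q) (𝓝 c)) : f.1 q = c :=
  tendsto_nhds_unique (ufil_tendsto f q) h

/-- `ufil q` is free for `q` outside `ω` -/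
theorem ufil_free {q : StoneCech ℕ} (hq : q ∉ range un) (F : Finset ℕ) :
    ((F : Set ℕ))ᶜ ∈ ufil q := by
  have h : ∀ n ∈ F, ({n} : Set ℕ)ᶜ ∈ ufil q := by
    intro n _
    have h1 : ({un n} : Set (StoneCech ℕ))ᶜ ∈ 𝓝 q :=
      isClosed_singleton.isOpen_compl.mem_nhds (fun h => hq ⟨n, h.symm⟩)
    have h2 : un ⁻¹' ({un n} : Set (StoneCech ℕ))ᶜ ∈ ufil q := preimage_mem_comap h1
    refine mem_of_superset h2 ?_
    intro m hm hmn
    apply hm
    rw [mem_singleton_iff] at hmn
    rw [hmn]; rfl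
  have h3 := (Filter.biInter_finset_mem F).2 h
  refine mem_of_superset h3 ?_
  intro m hm hmF
  have := Set.mem_iInter₂.1 hm m hmF
  exact this rfl

/-- two elements of `X` that agree on a cofinite subset of `ω` have the same values off `ω` -/
theorem value_eq_of_cofinite {f g : X} {F : Finset ℕ} (h : ∀ n ∉ F, f.1 (un n) = g.1 (un n))
    {q : StoneCech ℕ} (hq : q ∉ range un) : f.1 q = g.1 q := by
  apply value_eq_of_tendsto
  refine (ufil_tendsto g q).congr' ?_
  filter_upwards [ufil_free hq F] with n hn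
  exact (h n hn).symm

/-! ### The space as a dense subspace of a power of `ℝ` -/

/-- the coordinates of `X × ℝ^ω` -/
def emb (p : X × (ℕ → ℝ)) : StoneCech ℕ ⊕ ℕ → ℝ := Sum.elim p.1.1 p.2

lemma emb_inducing : IsInducing emb := by
  have h1 : IsInducing (fun p : X × (ℕ → ℝ) => (p.1.1, p.2)) :=
    IsInducing.subtypeVal.prodMap IsInducing.id
  have h2 : IsInducing (fun p : (StoneCech ℕ → ℝ) × (ℕ → ℝ) =>
      (Sum.elim p.1 p.2 : StoneCech ℕ ⊕ ℕ → ℝ)) :=
    (Homeomorph.sumArrowHomeomorphProdArrow (ι := StoneCech ℕ) (ι' := ℕ) (X := ℝ)).symm.isInducing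
  exact h2.comp h1

/-- any finitely many values are taken by an element of `X` -/
theorem exists_values (J : Finset (StoneCech ℕ)) (v : StoneCech ℕ → ℝ) :
    ∃ f : X, ∀ q ∈ J, f.1 q = v q := by
  have hJ : IsClosed (J : Set (StoneCech ℕ)) := J.finite_toSet.isClosed
  have : DiscreteTopology (J : Set (StoneCech ℕ)) := inferInstance
  let g : C((J : Set (StoneCech ℕ)), ℝ) := ⟨fun q => v q, continuous_of_discreteTopology⟩
  obtain ⟨f, hf⟩ := ContinuousMap.exists_restrict_eq hJ g
  refine ⟨⟨f, f.continuous⟩, ?_⟩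
  intro q hq
  have := DFunLike.congr_fun hf ⟨q, hq⟩
  exact this

lemma emb_dense : DenseRange emb := by
  classical
  rw [DenseRange, dense_iff_inter_open]
  intro U hU ⟨x, hx⟩
  rw [isOpen_pi_iff] at hU
  obtain ⟨J, u, hu, hsub⟩ := hU x hx
  obtain ⟨f, hf⟩ := exists_values (J.toLeft) (fun q => x (Sum.inl q))
  refine ⟨emb (f, fun n => x (Sum.inr n)), hsub ?_, mem_range_self _⟩
  intro i hi
  rcases i with q | n
  · have : emb (f, fun n => x (Sum.inr n)) (Sum.inl q) = x (Sum.inl q) :=
      hf q (by simpa using hi)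
    rw [this]; exact (hu _ hi).2
  · exact (hu _ hi).2

lemma embX_inducing : IsInducing (fun f : X => f.1) := IsInducing.subtypeVal

lemma embX_dense : DenseRange (fun f : X => f.1) := by
  classical
  rw [DenseRange, dense_iff_inter_open]
  intro U hU ⟨x, hx⟩
  rw [isOpen_pi_iff] at hU
  obtain ⟨J, u, hu, hsub⟩ := hU x hx
  obtain ⟨f, hf⟩ := exists_values J x
  refine ⟨f.1, hsub ?_, mem_range_self f⟩
  intro i hi
  rw [hf i hi]
  exact (hu _ hi).2

/-! ### Lemma 1: countable closed sets of coordinates -/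

/-- continuous real functions on `X × ℝ^ω`: sequential continuity for countably many coordinates -/
theorem seq_prod (F : X × (ℕ → ℝ) → ℝ) (hF : Continuous F) :
    ∃ A : Set (StoneCech ℕ), A.Countable ∧ ∀ (f : X) (t : ℕ → ℝ) (fs : ℕ → X) (ts : ℕ → ℕ → ℝ),
      (∀ a ∈ A, Tendsto (fun n => (fs n).1 a) atTop (𝓝 (f.1 a))) →
      (∀ k, Tendsto (fun n => ts n k) atTop (𝓝 (t k))) →
        Tendsto (fun n => F (fs n, ts n)) atTop (𝓝 (F (f, t))) := by
  obtain ⟨A, hA, h⟩ := countable_seq emb emb_inducing emb_dense F hF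
  refine ⟨Sum.inl ⁻¹' A, hA.preimage Sum.inl_injective, ?_⟩
  intro f t fs ts h1 h2
  apply h (f, t) (fun n => (fs n, ts n))
  intro i hi
  rcases i with q | k
  · exact h1 q hi
  · exact h2 k

/-- continuous real functions on `X`: sequential continuity for countably many coordinates -/
theorem seq_X (F : X → ℝ) (hF : Continuous F) :
    ∃ A : Set (StoneCech ℕ), A.Countable ∧ ∀ (f : X) (fs : ℕ → X),
      (∀ a ∈ A, Tendsto (fun n => (fs n).1 a) atTop (𝓝 (f.1 a))) →
        Tendsto (fun n => F (fs n)) atTop (𝓝 (F f)) :=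
  countable_seq (fun f : X => f.1) embX_inducing embX_dense F hF

/-- **Lemma 1.** For a homeomorphism `h : X × ℝ^ω → X` there is a countable set `A ⊇ ω` of points
of `βω` such that `h` and its inverse are sequentially continuous for the pointwise convergence
on `A`. -/
theorem exists_closed (h : (X × (ℕ → ℝ)) ≃ₜ X) : ∃ A : Set (StoneCech ℕ), A.Countable ∧
    range un ⊆ A ∧
    (∀ (f : X) (t : ℕ → ℝ) (fs : ℕ → X) (ts : ℕ → ℕ → ℝ),
      (∀ a ∈ A, Tendsto (fun n => (fs n).1 a) atTop (𝓝 (f.1 a))) →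
      (∀ k, Tendsto (fun n => ts n k) atTop (𝓝 (t k))) →
        ∀ a ∈ A, Tendsto (fun n => (h (fs n, ts n)).1 a) atTop (𝓝 ((h (f, t)).1 a))) ∧
    (∀ (g : X) (gs : ℕ → X),
      (∀ a ∈ A, Tendsto (fun n => (gs n).1 a) atTop (𝓝 (g.1 a))) →
        (∀ k, Tendsto (fun n => (h.symm (gs n)).2 k) atTop (𝓝 ((h.symm g).2 k))) ∧
        ∀ a ∈ A, Tendsto (fun n => (h.symm (gs n)).1.1 a) atTop (𝓝 ((h.symm g).1.1 a))) := by
  have hc1 : ∀ a, Continuous (fun p : X × (ℕ → ℝ) => (h p).1 a) := fun a =>
    (continuous_apply a).comp (continuous_subtype_val.comp h.continuous)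
  have hc2 : ∀ a, Continuous (fun g : X => (h.symm g).1.1 a) := fun a =>
    (continuous_apply a).comp (continuous_subtype_val.comp (continuous_fst.comp h.symm.continuous))
  have hc3 : ∀ k, Continuous (fun g : X => (h.symm g).2 k) := fun k =>
    (continuous_apply k).comp (continuous_snd.comp h.symm.continuous)
  choose D1 hD1 hD1' using fun a => seq_prod _ (hc1 a)
  choose D2 hD2 hD2' using fun a => seq_X _ (hc2 a)
  choose D3 hD3 hD3' using fun k => seq_X _ (hc3 k)
  -- iterate
  let step : Set (StoneCech ℕ) → Set (StoneCech ℕ) := fun B => B ∪ (⋃ a ∈ B, D1 a ∪ D2 a)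
  let B : ℕ → Set (StoneCech ℕ) := fun n => step^[n] (range un ∪ ⋃ k, D3 k)
  have hB : ∀ n, (B n).Countable := by
    intro n
    induction n with
    | zero => exact (countable_range _).union (countable_iUnion hD3)
    | succ n ih =>
      have : B (n + 1) = step (B n) := Function.iterate_succ_apply' _ _ _
      rw [this]
      exact ih.union (ih.biUnion fun a _ => (hD1 a).union (hD2 a))
  have hBs : ∀ n, ∀ a ∈ B n, D1 a ∪ D2 a ⊆ B (n + 1) := by
    intro n a ha
    have : B (n + 1) = step (B n) := Function.iterate_succ_apply' _ _ _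
    rw [this]
    exact (subset_biUnion_of_mem (u := fun a => D1 a ∪ D2 a) ha).trans subset_union_right
  refine ⟨⋃ n, B n, countable_iUnion hB, ?_, ?_, ?_⟩
  · exact subset_union_left.trans (subset_iUnion B 0)
  · intro f t fs ts h1 h2 a ha
    obtain ⟨n, hn⟩ := mem_iUnion.1 ha
    apply hD1' a f t fs ts _ h2
    intro b hb
    exact h1 b (mem_iUnion.2 ⟨n + 1, hBs n a hn (Or.inl hb)⟩)
  · intro g gs h1
    refine ⟨fun k => ?_, fun a ha => ?_⟩
    · apply hD3' k g gs
      intro b hb
      refine h1 b (mem_iUnion.2 ⟨0, Or.inr (mem_iUnion.2 ⟨k, hb⟩)⟩)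
    · obtain ⟨n, hn⟩ := mem_iUnion.1 ha
      apply hD2' a g gs
      intro b hb
      exact h1 b (mem_iUnion.2 ⟨n + 1, hBs n a hn (Or.inr hb)⟩)

end Pool.Agent.CPB
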