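import Mathlib
import Pool.Agent.Helper44.Brouwer

/-!
# Poincaré-Miranda in `n` dimensions
-/

set_option autoImplicit false

namespace Pool.Agent.CPB

open Set

variable {ι : Type*} [Fintype ι]

/-- **Poincaré-Miranda** on the cube `[-1,1]^ι`. -/
theorem poincare_miranda_cube (F : (ι → ℝ) → (ι → ℝ))
    (hF : ContinuousOn F (Icc (fun _ => -1) (fun _ => 1)))
    (h1 : ∀ x ∈ Icc (fun _ : ι => (-1 : ℝ)) (fun _ => 1), ∀ i, x i = 1 → 0 ≤ F x i)
    (h2 : ∀ x ∈ Icc (fun _ : ι => (-1 : ℝ)) (fun _ => 1), ∀ i, x i = -1 → F x i ≤ 0) :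
    ∃ x ∈ Icc (fun _ : ι => (-1 : ℝ)) (fun _ => 1), F x = 0 := by
  classical
  -- the clamping
  let cl : (ι → ℝ) → (ι → ℝ) := fun x i => max (-1) (min (x i) 1)
  have hcl : Continuous cl := by fun_prop
  have hclm : ∀ x, cl x ∈ Icc (fun _ : ι => (-1 : ℝ)) (fun _ => 1) := by
    intro x
    constructor
    · intro i; exact le_max_left _ _
    · intro i; exact max_le (by norm_num) (min_le_right _ _)
  have hFc : Continuous fun x => F (cl x) := hF.comp_continuous hcl hclm
  let R : ℝ := (Fintype.card ι : ℝ) + 1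
  let E := EuclideanSpace ℝ ι
  let toF : E → (ι → ℝ) := fun x => x.ofLp
  let ofF : (ι → ℝ) → E := fun x => WithLp.toLp 2 x
  have htoF : Continuous toF := PiLp.continuous_ofLp 2 _
  have hofF : Continuous ofF := PiLp.continuous_toLp 2 _
  -- the cutoff: 1 if the norm is at most `R`, 0 if it is at least `R + 1`
  let c : E → ℝ := fun x => min 1 (max 0 (R + 1 - ‖x‖))
  have hcc : Continuous c := by fun_prop
  have hc0 : ∀ x, 0 ≤ c x := fun x => le_min zero_le_one (le_max_left _ _)
  have hc1 : ∀ x, c x ≤ 1 := fun x => min_le_left _ _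
  let G : (ι → ℝ) → (ι → ℝ) := fun x i => F (cl x) i + (x i - cl x i)
  have hG : Continuous G := by
    refine continuous_pi fun i => ?_
    exact ((continuous_apply i).comp hFc).add
      ((continuous_apply i).sub ((continuous_apply i).comp hcl))
  let H : E → E := fun x => (1 - c x) • x + c x • ofF (G (toF x))
  have hH : Continuous H := by
    exact ((continuous_const.sub hcc).smul continuous_id).add
      (hcc.smul (hofF.comp (hG.comp htoF)))
  obtain ⟨x, hx⟩ := Pool.Agent.Helper44.Brouwer.exists_zero H hH (R + 1) (by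
    intro x hx
    have : c x = 0 := by
      simp only [c]
      rw [max_eq_left (by linarith), min_eq_right zero_le_one]
    simp only [H, this, sub_zero, one_smul, zero_smul, add_zero])
  have hxi : ∀ i, (1 - c x) * x i + c x * (F (cl (toF x)) i + (x i - cl (toF x) i)) = 0 := by
    intro i
    exact congrArg (fun y : E => y i) hx
  -- all coordinates are in `[-1,1]`
  have hin : ∀ i, -1 ≤ x i ∧ x i ≤ 1 := by
    intro i
    constructor
    · by_contra hlt
      rw [not_le] at hlt
      have e1 : cl (toF x) i = -1 := by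
        simp only [cl, toF]
        rw [min_eq_left (by linarith), max_eq_left hlt.le]
      have e2 := h2 _ (hclm (toF x)) i e1
      have e3 := hxi i
      rw [e1] at e3
      have e4 := hc0 x
      have e5 := hc1 x
      nlinarith [mul_nonneg e4 (sub_nonneg.2 e2), mul_nonneg e4 (show (0 : ℝ) ≤ -1 - x i by linarith),
        mul_nonneg (sub_nonneg.2 e5) (show (0 : ℝ) ≤ -1 - x i by linarith)]
    · by_contra hlt
      rw [not_le] at hlt
      have e1 : cl (toF x) i = 1 := by
        simp only [cl, toF]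
        rw [min_eq_right hlt.le, max_eq_right (by norm_num)]
      have e2 := h1 _ (hclm (toF x)) i e1
      have e3 := hxi i
      rw [e1] at e3
      have e4 := hc0 x
      have e5 := hc1 x
      nlinarith [mul_nonneg e4 e2, mul_nonneg e4 (show (0 : ℝ) ≤ x i - 1 by linarith),
        mul_nonneg (sub_nonneg.2 e5) (show (0 : ℝ) ≤ x i - 1 by linarith)]
  have hxm : toF x ∈ Icc (fun _ : ι => (-1 : ℝ)) (fun _ => 1) :=
    ⟨fun i => (hin i).1, fun i => (hin i).2⟩
  have hclx : cl (toF x) = toF x := by
    funext i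
    simp only [cl, toF]
    rw [min_eq_left (hin i).2, max_eq_right (hin i).1]
  have hnorm : ‖x‖ ≤ R := by
    rw [EuclideanSpace.norm_eq]
    have h3 : ∑ i, ‖x i‖ ^ 2 ≤ (Fintype.card ι : ℝ) := by
      calc ∑ i, ‖x i‖ ^ 2 ≤ ∑ _i : ι, (1 : ℝ) := by
            apply Finset.sum_le_sum
            intro i _
            rw [Real.norm_eq_abs, sq_abs]
            have := hin i
            nlinarith
        _ = (Fintype.card ι : ℝ) := by simp
    have h4 : (0 : ℝ) ≤ (Fintype.card ι : ℝ) := Nat.cast_nonneg _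
    calc Real.sqrt (∑ i, ‖x i‖ ^ 2) ≤ Real.sqrt (R ^ 2) := by
          apply Real.sqrt_le_sqrt
          simp only [R]
          nlinarith
      _ = R := Real.sqrt_sq (by simp only [R]; linarith)
  have hcx : c x = 1 := by
    simp only [c]
    rw [max_eq_right (by linarith), min_eq_left (by linarith)]
  refine ⟨toF x, hxm, ?_⟩
  funext i
  have := hxi i
  rw [hcx, hclx] at this
  simp only [toF] at this
  simp only [Pi.zero_apply, toF]
  linarith

/-- **Poincaré-Miranda** on a box `[l, u]`. -/
theorem poincare_miranda (l u : ι → ℝ) (hlu : l ≤ u) (F : (ι → ℝ) → (ι → ℝ))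
    (hF : ContinuousOn F (Icc l u))
    (h1 : ∀ x ∈ Icc l u, ∀ i, x i = u i → 0 ≤ F x i)
    (h2 : ∀ x ∈ Icc l u, ∀ i, x i = l i → F x i ≤ 0) :
    ∃ x ∈ Icc l u, F x = 0 := by
  let g : (ι → ℝ) → (ι → ℝ) := fun y i => (l i + u i) / 2 + (u i - l i) / 2 * y i
  have hg : Continuous g := by fun_prop
  have hgm : ∀ y ∈ Icc (fun _ : ι => (-1 : ℝ)) (fun _ => 1), g y ∈ Icc l u := by
    intro y hy
    have hli : ∀ i, l i ≤ u i := hlu
    have hy1 : ∀ i, -1 ≤ y i := hy.1
    have hy2 : ∀ i, y i ≤ 1 := hy.2
    constructor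
    · intro i
      have := hli i; have := hy1 i; have := hy2 i
      simp only [g]
      nlinarith
    · intro i
      have := hli i; have := hy1 i; have := hy2 i
      simp only [g]
      nlinarith
  obtain ⟨y, hy, hFy⟩ := poincare_miranda_cube (fun y => F (g y))
    (hF.comp hg.continuousOn (fun y hy => hgm y hy))
    (fun y hy i hi => h1 _ (hgm y hy) i (by simp only [g]; rw [hi]; ring))
    (fun y hy i hi => h2 _ (hgm y hy) i (by simp only [g]; rw [hi]; ring))
  exact ⟨g y, hgm y hy, hFy⟩

/-- If `F` is within distance `a i` of the identity (shifted by `b`) on the box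
`{|x i - b i| ≤ a i}` then `F` takes the value `b`. -/
theorem exists_eq_of_near_id (a b : ι → ℝ) (F : (ι → ℝ) → (ι → ℝ))
    (hF : ContinuousOn F {x | ∀ i, |x i - b i| ≤ a i}) (ha : ∀ i, 0 ≤ a i)
    (hn : ∀ x, (∀ i, |x i - b i| ≤ a i) → ∀ i, |F x i - x i| ≤ a i) :
    ∃ x, (∀ i, |x i - b i| ≤ a i) ∧ F x = b := by
  have hset : {x : ι → ℝ | ∀ i, |x i - b i| ≤ a i} = Icc (fun i => b i - a i) (fun i => b i + a i) := by
    ext x
    simp only [mem_ofPred_eq, mem_Icc, Pi.le_def, abs_le]
    constructor
    · intro h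
      exact ⟨fun i => by have := h i; linarith, fun i => by have := h i; linarith⟩
    · rintro ⟨h1, h2⟩ i
      exact ⟨by have := h1 i; linarith, by have := h2 i; linarith⟩
  rw [hset] at hF
  obtain ⟨x, hx, hFx⟩ := poincare_miranda (fun i => b i - a i) (fun i => b i + a i)
    (fun i => by have := ha i; show b i - a i ≤ b i + a i; linarith) (fun x => F x - b)
    (hF.sub continuousOn_const)
    (by
      intro x hx i hi
      rw [← hset] at hx
      have := abs_le.1 (hn x hx i)
      simp only [Pi.sub_apply]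
      linarith)
    (by
      intro x hx i hi
      rw [← hset] at hx
      have := abs_le.1 (hn x hx i)
      simp only [Pi.sub_apply]
      linarith)
  rw [← hset] at hx
  exact ⟨x, hx, sub_eq_zero.1 hFx⟩

end Pool.Agent.CPB
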