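import Mathlib
import Pool.Agent.CPB.Bridge
import Pool.Agent.CPB.PM

/-!
# Theorem A: no homeomorphism `X × ℝ^ω → X` moves points by null sequences only
-/

set_option autoImplicit false

namespace Pool.Agent.CPB

open Set Filter Topology

/-- the Baire boxes: `|f| ≤ 1`, `f` tends to `0` along the ultrafilters in `Q` -/
def YY (Q : Set (Ultrafilter ℕ)) : Set (ℕ → ℝ) :=
  {f | (∀ i, |f i| ≤ 1) ∧ ∀ U ∈ Q, Tendsto f (U : Filter ℕ) (𝓝 0)}

/-- the conclusion of Lemma 3 (a Baire category theorem for `YY Q × ℝ^ω`) -/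
def BaireBox : Prop := ∀ (Q : Set (Ultrafilter ℕ)), Q.Countable →
  (∀ U ∈ Q, ∀ F : Finset ℕ, ((F : Set ℕ))ᶜ ∈ U) →
  ∀ (C : ℕ → Set ((ℕ → ℝ) × (ℕ → ℝ))),
    (∀ N, ∀ f ∈ YY Q, ∀ (t : ℕ → ℝ) (fs ts : ℕ → ℕ → ℝ), (∀ n, fs n ∈ YY Q) →
      (∀ n, (fs n, ts n) ∈ C N) → (∀ i, Tendsto (fun n => fs n i) atTop (𝓝 (f i))) →
      (∀ k, Tendsto (fun n => ts n k) atTop (𝓝 (t k))) → (f, t) ∈ C N) →
    (∀ f ∈ YY Q, ∀ t, ∃ N, (f, t) ∈ C N) →
    ∃ N, ∃ f0 ∈ YY Q, ∃ (t0 : ℕ → ℝ) (F : Finset ℕ) (m : ℕ) (d : ℝ), 0 < d ∧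
      ∀ f ∈ YY Q, (∀ i ∈ F, |f i - f0 i| < d) → ∀ t : ℕ → ℝ, (∀ j < m, |t j - t0 j| < d) →
        (f, t) ∈ C N

open Classical in
/-- the extension of a bounded sequence -/
noncomputable def toX (a : ℕ → ℝ) : X :=
  if h : ∃ C, ∀ n, |a n| ≤ C then (exists_ext a h.choose h.choose_spec).choose
  else ⟨fun _ => 0, continuous_const⟩

lemma toX_un {a : ℕ → ℝ} (h : ∃ C, ∀ n, |a n| ≤ C) (n : ℕ) : (toX a).1 (un n) = a n := by
  have h1 : toX a = (exists_ext a h.choose h.choose_spec).choose := dif_pos h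
  rw [h1]
  exact (exists_ext a h.choose h.choose_spec).choose_spec.1 n

lemma toX_eq_zero {a : ℕ → ℝ} (h : ∃ C, ∀ n, |a n| ≤ C) {q : StoneCech ℕ}
    (ha : Tendsto a (ufil q : Filter ℕ) (𝓝 0)) : (toX a).1 q = 0 := by
  apply value_eq_of_tendsto
  have : (fun n => (toX a).1 (un n)) = a := funext fun n => toX_un h n
  rw [this]; exact ha

lemma ufil_le_cofinite {q : StoneCech ℕ} (hq : q ∉ range un) : (ufil q : Filter ℕ) ≤ atTop := by
  rw [← Nat.cofinite_eq_atTop]
  intro S hS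
  have hf : (Sᶜ).Finite := hS
  have h1 := ufil_free hq hf.toFinset
  have h2 : ((hf.toFinset : Set ℕ))ᶜ = S := by rw [hf.coe_toFinset, compl_compl]
  rw [h2] at h1
  exact h1

lemma value_eq_of_null {f g : X}
    (h : Tendsto (fun n => g.1 (un n) - f.1 (un n)) atTop (𝓝 0)) {q : StoneCech ℕ}
    (hq : q ∉ range un) : g.1 q = f.1 q := by
  apply value_eq_of_tendsto
  have h1 := (h.mono_left (ufil_le_cofinite hq)).add (ufil_tendsto f q)
  simpa using h1

lemma bdd_of_finsupp {a : ℕ → ℝ} {F : Finset ℕ} (h : ∀ i ∉ F, a i = 0) :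
    ∃ C, ∀ n, |a n| ≤ C := by
  refine ⟨∑ i ∈ F, |a i|, fun n => ?_⟩
  by_cases hn : n ∈ F
  · exact Finset.single_le_sum (f := fun i => |a i|) (fun i _ => abs_nonneg _) hn
  · rw [h n hn, abs_zero]
    exact Finset.sum_nonneg fun i _ => abs_nonneg _

lemma tendsto_of_finsupp {a : ℕ → ℝ} {F : Finset ℕ} (h : ∀ i ∉ F, a i = 0) {U : Ultrafilter ℕ}
    (hU : ((F : Set ℕ))ᶜ ∈ U) : Tendsto a (U : Filter ℕ) (𝓝 0) := by
  have : a =ᶠ[(U : Filter ℕ)] fun _ => 0 := by
    filter_upwards [hU] with n hn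
    exact h n hn
  exact tendsto_const_nhds.congr' this.symm

/-- **Theorem A** (from the Baire boxes). There is no homeomorphism `h : X × ℝ^ω → X` such that
`h (f, t) - f` is a null sequence on `ω` for all `f`, `t`. -/
theorem no_null_homeo (hB : BaireBox) (h : (X × (ℕ → ℝ)) ≃ₜ X)
    (hnull : ∀ f t, Tendsto (fun n => (h (f, t)).1 (un n) - f.1 (un n)) atTop (𝓝 0)) : False := by
  classical
  obtain ⟨A, hAc, hAun, hA1, hA2⟩ := exists_closed h
  let Q : Set (Ultrafilter ℕ) := ufil '' (A \ range un)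
  have hQc : Q.Countable := (hAc.mono sdiff_subset).image _
  have hQf : ∀ U ∈ Q, ∀ F : Finset ℕ, ((F : Set ℕ))ᶜ ∈ U := by
    rintro _ ⟨q, hq, rfl⟩ F
    exact ufil_free hq.2 F
  have hYb : ∀ f ∈ YY Q, ∃ C, ∀ n, |f n| ≤ C := fun f hf => ⟨1, hf.1⟩
  have hY0 : ∀ f ∈ YY Q, ∀ q ∈ A, q ∉ range un → (toX f).1 q = 0 := by
    intro f hf q hq hq'
    exact toX_eq_zero (hYb f hf) (hf.2 _ ⟨q, ⟨hq, hq'⟩, rfl⟩)
  -- convergence on `ω` gives convergence on `A`
  have hconv : ∀ (f : ℕ → ℝ) (fs : ℕ → ℕ → ℝ), f ∈ YY Q → (∀ n, fs n ∈ YY Q) →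
      (∀ i, Tendsto (fun n => fs n i) atTop (𝓝 (f i))) →
      ∀ a ∈ A, Tendsto (fun n => (toX (fs n)).1 a) atTop (𝓝 ((toX f).1 a)) := by
    intro f fs hf hfs hlim a ha
    by_cases hau : a ∈ range un
    · obtain ⟨i, rfl⟩ := hau
      rw [toX_un (hYb f hf)]
      refine (hlim i).congr fun n => ?_
      rw [toX_un (hYb _ (hfs n))]
    · rw [hY0 f hf a ha hau]
      refine tendsto_const_nhds.congr fun n => ?_
      rw [hY0 _ (hfs n) a ha hau]
  let C : ℕ → Set ((ℕ → ℝ) × (ℕ → ℝ)) := fun N => {p | (∀ i, |(h (toX p.1, p.2)).1 (un i)| ≤ N) ∧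
    ∀ i, N ≤ i → |(h (toX p.1, p.2)).1 (un i) - p.1 i| ≤ 1 / 8}
  obtain ⟨N, f0, hf0, t0, F, m, d, hd, hbox⟩ := hB Q hQc hQf C (by
    intro N f hf t fs ts hfs hC hl1 hl2
    have key : ∀ i, Tendsto (fun n => (h (toX (fs n), ts n)).1 (un i)) atTop
        (𝓝 ((h (toX f, t)).1 (un i))) := fun i =>
      hA1 (toX f) t (fun n => toX (fs n)) ts (hconv f fs hf hfs hl1) hl2 _ (hAun ⟨i, rfl⟩)
    refine ⟨fun i => ?_, fun i hi => ?_⟩
    · exact le_of_tendsto ((key i).abs) (Eventually.of_forall fun n => (hC n).1 i)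
    · exact le_of_tendsto (((key i).sub (hl1 i)).abs)
        (Eventually.of_forall fun n => (hC n).2 i hi)) (by
    intro f hf t
    obtain ⟨C1, hC1⟩ := bounded (h (toX f, t))
    have h1 := (Metric.tendsto_atTop.1 (hnull (toX f) t)) (1 / 8) (by norm_num)
    obtain ⟨N1, hN1⟩ := h1
    obtain ⟨N2, hN2⟩ := exists_nat_ge C1
    refine ⟨max N1 N2, fun i => ?_, fun i hi => ?_⟩
    · refine (hC1 _).trans (hN2.trans ?_)
      exact_mod_cast le_max_right N1 N2
    · have h2 := hN1 i ((le_max_left _ _).trans hi)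
      rw [Real.dist_eq, sub_zero, toX_un (hYb f hf)] at h2
      exact h2.le)
  -- the times
  let ts : ℕ → ℕ → ℝ := fun s j => if j = m then t0 j + s else t0 j
  have hts : ∀ s, ∀ j < m, |ts s j - t0 j| < d := by
    intro s j hj
    simp only [ts]
    rw [if_neg (by omega), sub_self, abs_zero]
    exact hd
  let Fs : ℕ → Finset ℕ := fun s => (Finset.range s).filter (fun i => N ≤ i ∧ i ∉ F)
  have key : ∀ s, ∃ a : ℕ → ℝ, a ∈ YY Q ∧ (∀ i ∉ F ∪ Fs s, a i = 0) ∧ (a, ts s) ∈ C N ∧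
      ∀ i ∈ Fs s, (h (toX a, ts s)).1 (un i) = 0 := by
    intro s
    -- the family of inputs
    let ay : (Fs s → ℝ) → ℕ → ℝ := fun y i =>
      if i ∈ F then f0 i else if hi : i ∈ Fs s then y ⟨i, hi⟩ else 0
    have hay0 : ∀ y, ∀ i ∉ F ∪ Fs s, ay y i = 0 := by
      intro y i hi
      rw [Finset.mem_union, not_or] at hi
      simp only [ay]
      rw [if_neg hi.1, dif_neg hi.2]
    have hayF : ∀ y, ∀ i ∈ F, ay y i = f0 i := fun y i hi => by simp only [ay]; rw [if_pos hi]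
    have hayFs : ∀ y, ∀ i (hi : i ∈ Fs s), ay y i = y ⟨i, hi⟩ := by
      intro y i hi
      simp only [ay]
      rw [if_neg (Finset.mem_filter.1 hi).2.2, dif_pos hi]
    have hayY : ∀ y, (∀ i, |y i| ≤ 1 / 8) → ay y ∈ YY Q := by
      intro y hy
      refine ⟨fun i => ?_, fun U hU => tendsto_of_finsupp (hay0 y) (hQf U hU _)⟩
      by_cases h1 : i ∈ F
      · rw [hayF y i h1]; exact hf0.1 i
      · by_cases h2 : i ∈ Fs s
        · rw [hayFs y i h2]; exact (hy _).trans (by norm_num)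
        · rw [hay0 y i (by rw [Finset.mem_union, not_or]; exact ⟨h1, h2⟩), abs_zero]
          norm_num
    have hcont : Continuous fun y => toX (ay y) := by
      refine Continuous.subtype_mk (f := fun y => (toX (ay y)).1) ?_ (fun y => (toX (ay y)).2)
      refine continuous_pi fun q => ?_
      by_cases hq : q ∈ range un
      · obtain ⟨i, rfl⟩ := hq
        have : (fun y => (toX (ay y)).1 (un i)) = fun y => ay y i := by
          funext y
          exact toX_un (bdd_of_finsupp (hay0 y)) i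
        rw [this]
        simp only [ay]
        split_ifs
        · exact continuous_const
        · exact continuous_apply _
        · exact continuous_const
      · have : (fun y => (toX (ay y)).1 q) = fun _ => 0 := by
          funext y
          exact toX_eq_zero (bdd_of_finsupp (hay0 y))
            (tendsto_of_finsupp (hay0 y) (ufil_free hq _))
        rw [this]
        exact continuous_const
    have hG : Continuous fun (y : Fs s → ℝ) (i : Fs s) => (h (toX (ay y), ts s)).1 (un i) := by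
      refine continuous_pi fun i => ?_
      exact (continuous_apply (un i)).comp (continuous_subtype_val.comp
        (h.continuous.comp (hcont.prodMk continuous_const)))
    have hinC : ∀ y, (∀ i, |y i| ≤ 1 / 8) → (ay y, ts s) ∈ C N := by
      intro y hy
      refine hbox _ (hayY y hy) ?_ _ (hts s)
      intro i hi
      rw [hayF y i hi, sub_self, abs_zero]
      exact hd
    obtain ⟨y, hy, hy0⟩ := exists_eq_of_near_id (fun _ : Fs s => (1 / 8 : ℝ)) 0
      (fun (y : Fs s → ℝ) (i : Fs s) => (h (toX (ay y), ts s)).1 (un i)) hG.continuousOn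
      (fun _ => by norm_num) (by
        intro y hy i
        have hy' : ∀ i, |y i| ≤ 1 / 8 := fun i => by simpa using hy i
        have h1 := (hinC y hy').2 i (Finset.mem_filter.1 i.2).2.1
        have h2 : ay y i = y i := hayFs y i i.2
        have h3 : |(h (toX (ay y), ts s)).1 (un i) - ay y i| ≤ 1 / 8 := h1
        rw [h2] at h3
        exact h3)
    have hy' : ∀ i, |y i| ≤ 1 / 8 := fun i => by simpa using hy i
    refine ⟨ay y, hayY y hy', hay0 y, hinC y hy', ?_⟩
    intro i hi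
    exact congrFun hy0 ⟨i, hi⟩
  choose a haY ha0 haC haz using key
  -- the outputs
  let G : ℕ → X := fun s => h (toX (a s), ts s)
  have hGb : ∀ s i, |(G s).1 (un i)| ≤ N := fun s i => (haC s).1 i
  have hG0 : ∀ s, ∀ q ∉ range un, (G s).1 q = 0 := by
    intro s q hq
    have h1 : (G s).1 q = (toX (a s)).1 q := value_eq_of_null (hnull (toX (a s)) (ts s)) hq
    rw [h1]
    exact toX_eq_zero (bdd_of_finsupp (ha0 s)) (tendsto_of_finsupp (ha0 s) (ufil_free hq _))
  obtain ⟨L, -, φ, hφ, hφL⟩ := (isCompact_univ_pi (fun _ : ℕ => isCompact_Icc (a := -(N : ℝ))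
    (b := N))).tendsto_subseq (x := fun s i => (G s).1 (un i)) (by
      intro s
      rw [Set.mem_univ_pi]
      exact fun i => abs_le.1 (hGb s i))
  rw [tendsto_pi_nhds] at hφL
  have hL0 : ∀ i ∉ Finset.range N ∪ F, L i = 0 := by
    intro i hi
    rw [Finset.mem_union, not_or, Finset.mem_range, not_lt] at hi
    refine tendsto_nhds_unique (hφL i) ?_
    refine tendsto_const_nhds.congr' ?_
    filter_upwards [eventually_gt_atTop i] with s hs
    have h1 : i < φ s := hs.trans_le (hφ.id_le s)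
    exact (haz (φ s) i (Finset.mem_filter.2 ⟨Finset.mem_range.2 h1, hi.1, hi.2⟩)).symm
  have hlim : ∀ b ∈ A, Tendsto (fun n => (G (φ n)).1 b) atTop (𝓝 ((toX L).1 b)) := by
    intro b _
    by_cases hb : b ∈ range un
    · obtain ⟨i, rfl⟩ := hb
      rw [toX_un (bdd_of_finsupp hL0)]
      exact hφL i
    · rw [toX_eq_zero (bdd_of_finsupp hL0) (tendsto_of_finsupp hL0 (ufil_free hb _))]
      refine tendsto_const_nhds.congr fun n => ?_
      rw [hG0 _ b hb]
  have hx := (hA2 (toX L) (fun n => G (φ n)) hlim).1 m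
  have hx' : ∀ n, (h.symm (G (φ n))).2 m = t0 m + φ n := by
    intro n
    simp only [G, Homeomorph.symm_apply_apply, ts, if_true]
  simp only [hx'] at hx
  have hinf : Tendsto (fun n => t0 m + (φ n : ℝ)) atTop atTop :=
    tendsto_const_nhds.add_atTop (tendsto_natCast_atTop_atTop.comp hφ.tendsto_atTop)
  exact not_tendsto_nhds_of_tendsto_atTop hinf _ hx

end Pool.Agent.CPB
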