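import Mathlib
import Pool.Agent.CPB.Baire
import Pool.Agent.CPB.ThmA

/-!
# The product of a Baire box with the countable power of the line is a Baire space
-/

set_option autoImplicit false

namespace Pool.Agent.CPB

open Set Filter Topology

/-- The product of a Baire space and a second countable Baire space is a Baire space. -/
theorem baire_prod {Y Z : Type*} [TopologicalSpace Y] [TopologicalSpace Z] [BaireSpace Y]
    [BaireSpace Z] [SecondCountableTopology Z] : BaireSpace (Y × Z) where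
  baire_property := by
    intro U hUo hUd
    rw [dense_iff_inter_open]
    rintro W hWo ⟨⟨y0, z0⟩, hx⟩
    obtain ⟨V, O, hV, hO, hyV, hzO, hVO⟩ := isOpen_prod_iff.1 hWo y0 z0 hx
    obtain ⟨b, hbc, hbe, hb⟩ := TopologicalSpace.exists_countable_basis Z
    have hbn : ∀ B ∈ b, B.Nonempty := fun B hB => by
      rw [Set.nonempty_iff_ne_empty]
      rintro rfl
      exact hbe hB
    have : Countable b := hbc.to_subtype
    let G : ℕ × b → Set Y := fun p => Prod.fst '' (U p.1 ∩ Prod.snd ⁻¹' (p.2 : Set Z))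
    have hGo : ∀ p, IsOpen (G p) := fun p =>
      isOpenMap_fst _ ((hUo p.1).inter ((hb.isOpen p.2.2).preimage continuous_snd))
    have hGd : ∀ p, Dense (G p) := by
      rintro ⟨n, B, hB⟩
      rw [dense_iff_inter_open]
      intro A hA hAn
      obtain ⟨⟨y, z⟩, h1, h2⟩ := (hUd n).inter_open_nonempty (A ×ˢ B) (hA.prod (hb.isOpen hB))
        (hAn.prod (hbn B hB))
      exact ⟨y, h1.1, ⟨(y, z), ⟨h2, h1.2⟩, rfl⟩⟩
    obtain ⟨y, hyV', hy⟩ := (dense_iInter_of_isOpen hGo hGd).inter_open_nonempty V hV ⟨y0, hyV⟩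
    have hSo : ∀ n, IsOpen {z | (y, z) ∈ U n} := fun n =>
      (hUo n).preimage (Continuous.prodMk_right y)
    have hSd : ∀ n, Dense {z | (y, z) ∈ U n} := by
      intro n
      rw [hb.dense_iff]
      intro B hB hBn
      obtain ⟨⟨y', z⟩, h1, h2⟩ := Set.mem_iInter.1 hy (n, ⟨B, hB⟩)
      obtain rfl : y' = y := h2
      exact ⟨z, h1.2, h1.1⟩
    obtain ⟨z, hzO', hz⟩ := (dense_iInter_of_isOpen hSo hSd).inter_open_nonempty O hO ⟨z0, hzO⟩
    exact ⟨(y, z), hVO ⟨hyV', hzO'⟩, Set.mem_iInter.2 fun n => Set.mem_iInter.1 hz n⟩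

/-- **Lemma 3.** A Baire category theorem for the boxes. -/
theorem baireBox : BaireBox := by
  intro Q hQ hfree C hC hcov
  have : Countable Q := hQ.to_subtype
  let q : Q → Ultrafilter ℕ := fun a => a.1
  have hq : ∀ a, (q a : Filter ℕ) ≤ cofinite := by
    intro a S hS
    have h1 := hfree a.1 a.2 (Filter.mem_cofinite.1 hS).toFinset
    rwa [Set.Finite.coe_toFinset, compl_compl] at h1
  have hYY : YY Q = YS q := by
    ext f
    constructor
    · exact fun h => ⟨h.1, fun a => h.2 a.1 a.2⟩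
    · exact fun h => ⟨h.1, fun U hU => h.2 ⟨U, hU⟩⟩
  have hto : ∀ {f : ℕ → ℝ}, f ∈ YY Q → f ∈ YS q := fun {f} h => by rwa [← hYY]
  have hof : ∀ {f : ℕ → ℝ}, f ∈ YS q → f ∈ YY Q := fun {f} h => by rwa [hYY]
  have h1 : BaireSpace (YS q) := baire_YS q hq
  have h2 : BaireSpace (YS q × (ℕ → ℝ)) := baire_prod
  have h0 : (0 : ℕ → ℝ) ∈ YS q := ⟨fun n => by simp, fun a => tendsto_const_nhds⟩
  have : Nonempty (YS q × (ℕ → ℝ)) := ⟨(⟨0, h0⟩, 0)⟩
  let D : ℕ → Set (YS q × (ℕ → ℝ)) := fun N => {p | (p.1.1, p.2) ∈ C N}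
  have hD : ∀ N, IsClosed (D N) := by
    intro N
    apply IsSeqClosed.isClosed
    intro xs x hxs hx
    refine hC N x.1.1 (hof x.1.2) x.2 (fun n => (xs n).1.1) (fun n => (xs n).2)
      (fun n => hof (xs n).1.2) hxs (fun i => ?_) (fun k => ?_)
    · exact (((continuous_apply i).comp (continuous_subtype_val.comp continuous_fst)).tendsto
        x).comp hx
    · exact (((continuous_apply k).comp continuous_snd).tendsto x).comp hx
  have hDc : ⋃ N, D N = univ := by
    refine Set.eq_univ_of_forall fun x => ?_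
    obtain ⟨N, hN⟩ := hcov x.1.1 (hof x.1.2) x.2
    exact Set.mem_iUnion.2 ⟨N, hN⟩
  obtain ⟨N, ⟨f0, t0⟩, hp⟩ := nonempty_interior_of_iUnion_of_closed hD hDc
  have h3 : D N ∈ 𝓝 (f0, t0) := mem_interior_iff_mem_nhds.1 hp
  rw [nhds_prod_eq, Filter.mem_prod_iff] at h3
  obtain ⟨A, hA, B, hB, hAB⟩ := h3
  rw [nhds_subtype, Filter.mem_comap] at hA
  obtain ⟨A', hA', hAA⟩ := hA
  obtain ⟨m1, e1, he1, hb1⟩ := exists_coord_box hA'
  obtain ⟨m2, e2, he2, hb2⟩ := exists_coord_box hB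
  refine ⟨N, f0.1, hof f0.2, t0, Finset.range m1, m2, min e1 e2, lt_min he1 he2, ?_⟩
  intro f hf hf1 t ht
  have h4 : (⟨f, hto hf⟩ : YS q) ∈ A := hAA (hb1 f fun n hn =>
    ((hf1 n (Finset.mem_range.2 hn)).trans_le (min_le_left _ _)).le)
  have h5 : t ∈ B := hb2 t fun n hn => ((ht n hn).trans_le (min_le_right _ _)).le
  exact hAB (Set.mk_mem_prod h4 h5)

/-- **Theorem A.** There is no homeomorphism `h : X × ℝ^ω → X` such that `h (f, t) - f` is a null
sequence on `ω` for all `f`, `t`. -/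
theorem theoremA (h : (X × (ℕ → ℝ)) ≃ₜ X)
    (hnull : ∀ f t, Tendsto (fun n => (h (f, t)).1 (un n) - f.1 (un n)) atTop (𝓝 0)) : False :=
  no_null_homeo baireBox h hnull

end Pool.Agent.CPB
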