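import Mathlib
import Pool.Agent.CPB.Bridge
import Pool.Agent.CPB.PM

/-!
# Theorem B: no homeomorphism `X × ℝ^ω → X` at bounded displacement
-/

set_option autoImplicit false

namespace Pool.Agent.CPB

open Set Filter Topology

/-- a basic neighbourhood in `X` -/
lemma exists_finite_nhd (x : X → ℝ) (hx : Continuous x) (g0 : X) :
    ∃ J : Finset (StoneCech ℕ), ∀ g : X, (∀ a ∈ J, g.1 a = g0.1 a) → |x g - x g0| < 1 := by
  have hU : IsOpen {g : X | |x g - x g0| < 1} :=
    isOpen_lt (continuous_abs.comp (hx.sub continuous_const)) continuous_const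
  obtain ⟨V, hV, hVU⟩ := isOpen_induced_iff.1 hU
  have hg0 : g0.1 ∈ V := by
    have : g0 ∈ Subtype.val ⁻¹' V := by
      rw [hVU]
      show |x g0 - x g0| < 1
      simp
    exact this
  obtain ⟨J, u, hu, hsub⟩ := isOpen_pi_iff.1 hV _ hg0
  refine ⟨J, fun g hg => ?_⟩
  have h1 : g ∈ Subtype.val ⁻¹' V := by
    apply hsub
    intro a ha
    rw [hg a ha]
    exact (hu a ha).2
  rw [hVU] at h1
  exact h1

/-- **Theorem B** (general form): a sequence of continuous self-maps of `X` with displacement at most
`C` cannot shift a continuous function `x : X → ℝ` arbitrarily far on compact sets. -/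
theorem no_bounded_shift (x : X → ℝ) (hx : Continuous x) (Φ : ℕ → X → X)
    (hΦ : ∀ s, Continuous (Φ s)) (C : ℝ) (hC : ∀ s g q, |(Φ s g).1 q - g.1 q| ≤ C)
    (hs : ∀ s g, x (Φ s g) = x g + s) : False := by
  classical
  let g0 : X := ⟨fun _ => 0, continuous_const⟩
  have hC0 : 0 ≤ C := (abs_nonneg _).trans (hC 0 g0 (un 0))
  obtain ⟨J, hJ⟩ := exists_finite_nhd x hx g0
  choose χ hχ using fun a : J => exists_values J (fun q => if q = (a : StoneCech ℕ) then 1 else 0)
  let e : (J → ℝ) → X := fun y => ⟨fun q => ∑ a : J, y a * (χ a).1 q,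
    continuous_finsetSum _ fun a _ => continuous_const.mul (χ a).2⟩
  have he : Continuous e := by
    refine Continuous.subtype_mk (continuous_pi fun q => ?_) _
    exact continuous_finsetSum _ fun a _ => (continuous_apply a).mul continuous_const
  have hev : ∀ y (b : J), (e y).1 b = y b := by
    intro y b
    show ∑ a : J, y a * (χ a).1 b = y b
    rw [Finset.sum_eq_single b]
    · rw [hχ b b b.2, if_pos rfl, mul_one]
    · intro a _ hab
      rw [hχ a b b.2, if_neg (fun h => hab (Subtype.ext h.symm)), mul_zero]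
    · intro h
      exact absurd (Finset.mem_univ b) h
  -- compactness of the cube
  have hK : IsCompact {y : J → ℝ | ∀ i, |y i - 0| ≤ C} := by
    have : {y : J → ℝ | ∀ i, |y i - 0| ≤ C} = Icc (fun _ => -C) (fun _ => C) := by
      ext y
      simp only [mem_ofPred_eq, mem_Icc, Pi.le_def, sub_zero, abs_le]
      exact ⟨fun h => ⟨fun i => (h i).1, fun i => (h i).2⟩, fun h i => ⟨h.1 i, h.2 i⟩⟩
    rw [this]
    exact isCompact_Icc
  obtain ⟨B, hB⟩ := hK.exists_bound_of_continuousOn (f := fun y => x (e y))
    (hx.comp he).continuousOn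
  obtain ⟨s, hsB⟩ := exists_nat_gt (B + 1 + |x g0|)
  obtain ⟨y, hy, hGy⟩ := exists_eq_of_near_id (fun _ : J => C) (fun _ => 0)
    (fun y b => (Φ s (e y)).1 b)
    (continuous_pi fun b : J => (continuous_apply (b : StoneCech ℕ)).comp
      (continuous_subtype_val.comp ((hΦ s).comp he))).continuousOn
    (fun _ => hC0) (fun y _ b => by
      have := hC s (e y) b
      rwa [hev] at this)
  have h1 := hJ (Φ s (e y)) (fun a ha => congrFun hGy ⟨a, ha⟩)
  rw [hs] at h1
  have h2 := hB y hy
  rw [Real.norm_eq_abs] at h2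
  have h3 := abs_lt.1 h1
  have h4 := abs_le.1 h2
  have h5 := le_abs_self (x g0)
  linarith [h3.2, h4.1]

/-- **Theorem B.** There is no homeomorphism `h : X × ℝ^ω → X` for which changing one fixed
coordinate of `ℝ^ω` moves the value by a uniformly bounded amount. -/
theorem no_bounded_homeo (h : (X × (ℕ → ℝ)) ≃ₜ X) (k : ℕ) (C : ℝ)
    (hC : ∀ (f : X) (t : ℕ → ℝ) (s : ℝ) (n : ℕ),
      |(h (f, Function.update t k (t k + s))).1 (un n) - (h (f, t)).1 (un n)| ≤ C) : False := by
  have hq : ∀ (f : X) (t : ℕ → ℝ) (s : ℝ) (q : StoneCech ℕ),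
      |(h (f, Function.update t k (t k + s))).1 q - (h (f, t)).1 q| ≤ C := by
    intro f t s q
    let d : X := ⟨fun q => (h (f, Function.update t k (t k + s))).1 q - (h (f, t)).1 q,
      (h (f, Function.update t k (t k + s))).2.sub (h (f, t)).2⟩
    exact abs_le_of_un (f := d) (fun n => hC f t s n) q
  refine no_bounded_shift (fun g => (h.symm g).2 k)
    ((continuous_apply k).comp (continuous_snd.comp h.symm.continuous))
    (fun s g => h ((h.symm g).1, Function.update (h.symm g).2 k ((h.symm g).2 k + (s : ℝ))))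
    (fun s => ?_) C (fun s g q => ?_) (fun s g => ?_)
  · refine h.continuous.comp ((continuous_fst.comp h.symm.continuous).prodMk ?_)
    refine (continuous_snd.comp h.symm.continuous).update k ?_
    exact ((continuous_apply k).comp (continuous_snd.comp h.symm.continuous)).add
      continuous_const
  · have h1 := hq (h.symm g).1 (h.symm g).2 s q
    have h2 : h ((h.symm g).1, (h.symm g).2) = g := h.apply_symm_apply g
    rw [h2] at h1
    exact h1
  · show (h.symm (h ((h.symm g).1, Function.update (h.symm g).2 k ((h.symm g).2 k + (s : ℝ))))).2 k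
      = (h.symm g).2 k + s
    rw [h.symm_apply_apply]
    exact Function.update_self _ _ _

end Pool.Agent.CPB
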