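import Mathlib
import Pool.Agent.CPB.ThmB

/-!
# Theorem C: the flows of a homeomorphism `X × ℝ^ω → X` have large displacement in every slice
-/

set_option autoImplicit false

namespace Pool.Agent.CPB

open Set Filter Topology

/-- truncation at level `c` -/
noncomputable def clip (c x : ℝ) : ℝ := max (-c) (min c x)

lemma clip_continuous (c : ℝ) : Continuous (clip c) :=
  continuous_const.max (continuous_const.min continuous_id)

lemma abs_clip {c : ℝ} (hc : 0 ≤ c) (x : ℝ) : |clip c x| ≤ c := by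
  rw [abs_le, clip]
  exact ⟨le_max_left _ _, max_le (by linarith) (min_le_left _ _)⟩

lemma clip_eq {c x : ℝ} (h : |x| ≤ c) : clip c x = x := by
  rw [abs_le] at h
  rw [clip, min_eq_right h.2, max_eq_right h.1]

/-- `g0` moved by the amounts `y a` at the points `a` of a finite set, and by at most `c` elsewhere -/
noncomputable def mv (g0 : X) (c : ℝ) {J : Finset (StoneCech ℕ)} (χ : J → X) (y : J → ℝ) : X :=
  ⟨fun q => g0.1 q + clip c (∑ a : J, y a * (χ a).1 q),
    g0.2.add ((clip_continuous c).comp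
      (continuous_finsetSum _ fun a _ => continuous_const.mul (χ a).2))⟩

lemma mv_continuous (g0 : X) (c : ℝ) {J : Finset (StoneCech ℕ)} (χ : J → X) :
    Continuous (mv g0 c χ) := by
  refine Continuous.subtype_mk (continuous_pi fun q => ?_) _
  exact continuous_const.add ((clip_continuous c).comp
    (continuous_finsetSum _ fun a _ => (continuous_apply a).mul continuous_const))

lemma mv_near (g0 : X) {c : ℝ} (hc : 0 ≤ c) {J : Finset (StoneCech ℕ)} (χ : J → X) (y : J → ℝ)
    (q : StoneCech ℕ) : |(mv g0 c χ y).1 q - g0.1 q| ≤ c := by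
  show |g0.1 q + clip c (∑ a : J, y a * (χ a).1 q) - g0.1 q| ≤ c
  rw [add_sub_cancel_left]
  exact abs_clip hc _

open Classical in
/-- **Theorem C** (general form). -/
theorem no_small_slice (x : X → ℝ) (hx : Continuous x) (Φ : ℕ → X → X)
    (hΦ : ∀ s, Continuous (Φ s)) (hs : ∀ s g, x (Φ s g) = x g + s) (g0 : X)
    (F0 : Finset (StoneCech ℕ)) (ε : ℝ) (hε : 0 ≤ ε)
    (hC : ∀ s g, (∀ a ∈ F0, g.1 a = g0.1 a) → (∀ q, |g.1 q - g0.1 q| ≤ 2 * ε) →
      ∀ q, |(Φ s g).1 q - g.1 q| ≤ ε) : False := by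
  choose χ0 hχ0 using fun a : F0 => exists_values F0
    (fun q => if q = (a : StoneCech ℕ) then 1 else 0)
  have hG : ∀ (η : F0 → ℝ), (∀ b, |η b| ≤ ε) → ∀ b : F0, (mv g0 ε χ0 η).1 b = g0.1 b + η b := by
    intro η hη b
    show g0.1 b + clip ε (∑ a : F0, η a * (χ0 a).1 b) = g0.1 b + η b
    rw [Finset.sum_eq_single b]
    · rw [hχ0 b b b.2, if_pos rfl, mul_one, clip_eq (hη b)]
    · intro a _ hab
      rw [hχ0 a b b.2, if_neg (fun h => hab (Subtype.ext h.symm)), mul_zero]
    · intro h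
      exact absurd (Finset.mem_univ b) h
  -- the compact target family
  have hcube : ∀ (c : ℝ) (J : Finset (StoneCech ℕ)), IsCompact {y : J → ℝ | ∀ i, |y i - 0| ≤ c} := by
    intro c J
    have : {y : J → ℝ | ∀ i, |y i - 0| ≤ c} = Icc (fun _ => -c) (fun _ => c) := by
      ext y
      simp only [mem_ofPred_eq, mem_Icc, Pi.le_def, sub_zero, abs_le]
      exact ⟨fun h => ⟨fun i => (h i).1, fun i => (h i).2⟩, fun h i => ⟨h.1 i, h.2 i⟩⟩
    rw [this]
    exact isCompact_Icc
  obtain ⟨F, B, hFB⟩ : ∃ (F : Finset (StoneCech ℕ)) (B : ℝ), ∀ η ∈ {y : F0 → ℝ | ∀ i, |y i - 0| ≤ ε},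
      ∀ g : X, (∀ a ∈ F, g.1 a = (mv g0 ε χ0 η).1 a) → |x g| ≤ B := by
    refine (hcube ε F0).induction_on (p := fun s => ∃ (F : Finset (StoneCech ℕ)) (B : ℝ), ∀ η ∈ s,
      ∀ g : X, (∀ a ∈ F, g.1 a = (mv g0 ε χ0 η).1 a) → |x g| ≤ B) ?_ ?_ ?_ ?_
    · exact ⟨∅, 0, fun η hη => absurd hη (notMem_empty η)⟩
    · rintro s t hst ⟨F, B, h⟩
      exact ⟨F, B, fun η hη => h η (hst hη)⟩
    · rintro s t ⟨F, B, h⟩ ⟨F', B', h'⟩
      refine ⟨F ∪ F', max B B', fun η hη g hg => ?_⟩
      rcases hη with hη | hη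
      · exact (h η hη g fun a ha => hg a (Finset.mem_union_left _ ha)).trans (le_max_left _ _)
      · exact (h' η hη g fun a ha => hg a (Finset.mem_union_right _ ha)).trans (le_max_right _ _)
    · intro η _
      have hU : IsOpen {g : X | |x g| < |x (mv g0 ε χ0 η)| + 1} :=
        isOpen_lt (continuous_abs.comp hx) continuous_const
      obtain ⟨V, hV, hVU⟩ := isOpen_induced_iff.1 hU
      have hg0 : (mv g0 ε χ0 η).1 ∈ V := by
        have : (mv g0 ε χ0 η) ∈ Subtype.val ⁻¹' V := by
          rw [hVU]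
          show |x (mv g0 ε χ0 η)| < |x (mv g0 ε χ0 η)| + 1
          linarith
        exact this
      obtain ⟨J, u, hu, hsub⟩ := isOpen_pi_iff.1 hV _ hg0
      have hO : IsOpen {η' : F0 → ℝ | ∀ a ∈ J, (mv g0 ε χ0 η').1 a ∈ u a} := by
        have : {η' : F0 → ℝ | ∀ a ∈ J, (mv g0 ε χ0 η').1 a ∈ u a} =
            ⋂ a ∈ J, {η' : F0 → ℝ | (mv g0 ε χ0 η').1 a ∈ u a} := by
          ext η'
          simp only [mem_ofPred_eq, mem_iInter]
        rw [this]
        refine isOpen_biInter_finset fun a ha => ?_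
        exact (hu a ha).1.preimage ((continuous_apply a).comp
          (continuous_subtype_val.comp (mv_continuous g0 ε χ0)))
      refine ⟨_, mem_nhdsWithin_of_mem_nhds (hO.mem_nhds fun a ha => (hu a ha).2),
        J, |x (mv g0 ε χ0 η)| + 1, ?_⟩
      intro η' hη' g hg
      have h1 : g ∈ Subtype.val ⁻¹' V := by
        apply hsub
        intro a ha
        rw [hg a ha]
        exact hη' a ha
      rw [hVU] at h1
      exact le_of_lt h1
  -- the cube
  choose χ hχ using fun a : ((F ∪ F0) \ F0 : Finset (StoneCech ℕ)) => exists_values (F ∪ F0)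
    (fun q => if q = (a : StoneCech ℕ) then 1 else 0)
  let e : (((F ∪ F0) \ F0 : Finset (StoneCech ℕ)) → ℝ) → X := mv g0 (2 * ε) χ
  have he : Continuous e := mv_continuous _ _ _
  have heF : ∀ y, (∀ i, |y i - 0| ≤ 2 * ε) → ∀ b : ((F ∪ F0) \ F0 : Finset (StoneCech ℕ)),
      (e y).1 b = g0.1 b + y b := by
    intro y hy b
    show g0.1 b + clip (2 * ε) (∑ a, y a * (χ a).1 b) = g0.1 b + y b
    have hb := (Finset.mem_sdiff.1 b.2).1
    rw [Finset.sum_eq_single b]
    · have := hy b
      rw [sub_zero] at this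
      rw [hχ b b hb, if_pos rfl, mul_one, clip_eq this]
    · intro a _ hab
      rw [hχ a b hb, if_neg (fun h => hab (Subtype.ext h.symm)), mul_zero]
    · intro h
      exact absurd (Finset.mem_univ b) h
  have heF0 : ∀ y, ∀ b ∈ F0, (e y).1 b = g0.1 b := by
    intro y b hb
    show g0.1 b + clip (2 * ε) (∑ a, y a * (χ a).1 b) = g0.1 b
    rw [Finset.sum_eq_zero, clip_eq (by rw [abs_zero]; linarith), add_zero]
    intro a _
    have ha := (Finset.mem_sdiff.1 a.2).2
    have hne : b ≠ (a : StoneCech ℕ) := by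
      rintro rfl
      exact ha hb
    rw [hχ a b (Finset.mem_union_right _ hb), if_neg hne, mul_zero]
  have hnear : ∀ y q, |(e y).1 q - g0.1 q| ≤ 2 * ε := fun y q => mv_near g0 (by linarith) χ y q
  obtain ⟨B', hB'⟩ := (hcube (2 * ε) ((F ∪ F0) \ F0)).exists_bound_of_continuousOn
    (f := fun y => x (e y)) (hx.comp he).continuousOn
  obtain ⟨s, hsB⟩ := exists_nat_gt (B + B')
  -- the values on `F0`
  let η : (((F ∪ F0) \ F0 : Finset (StoneCech ℕ)) → ℝ) → F0 → ℝ := fun y b =>
    (Φ s (e y)).1 b - g0.1 b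
  have hηc : Continuous η := continuous_pi fun b => ((continuous_apply (b : StoneCech ℕ)).comp
      (continuous_subtype_val.comp ((hΦ s).comp he))).sub continuous_const
  have hηb : ∀ y b, |η y b| ≤ ε := by
    intro y b
    have := hC s (e y) (heF0 y) (hnear y) b
    rwa [heF0 y b b.2] at this
  obtain ⟨y, hy, hGy⟩ := exists_eq_of_near_id
    (fun _ : ((F ∪ F0) \ F0 : Finset (StoneCech ℕ)) => 2 * ε) (fun _ => 0)
    (fun y a => (Φ s (e y)).1 a - (mv g0 ε χ0 (η y)).1 a)
    (continuous_pi fun a : ((F ∪ F0) \ F0 : Finset (StoneCech ℕ)) =>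
      ((continuous_apply (a : StoneCech ℕ)).comp
      (continuous_subtype_val.comp ((hΦ s).comp he))).sub
      ((continuous_apply (a : StoneCech ℕ)).comp
      (continuous_subtype_val.comp ((mv_continuous g0 ε χ0).comp hηc)))).continuousOn
    (fun _ => by linarith) (fun y hy a => by
      have h1 := hC s (e y) (heF0 y) (hnear y) a
      have h2 := mv_near g0 hε χ0 (η y) a
      rw [heF y hy a] at h1
      have h3 := abs_le.1 h1
      have h4 := abs_le.1 h2
      rw [abs_le]
      constructor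
      · linarith [h3.1, h4.2]
      · linarith [h3.2, h4.1])
  have h1 : |x (Φ s (e y))| ≤ B := by
    refine hFB (η y) (fun b => by rw [sub_zero]; exact hηb y b) _ fun a ha => ?_
    by_cases haF : a ∈ F0
    · have := hG (η y) (hηb y) ⟨a, haF⟩
      rw [this]
      show (Φ s (e y)).1 a = g0.1 a + ((Φ s (e y)).1 a - g0.1 a)
      ring
    · have := congrFun hGy ⟨a, Finset.mem_sdiff.2 ⟨Finset.mem_union_left _ ha, haF⟩⟩
      exact sub_eq_zero.1 this
  rw [hs] at h1
  have h2 := hB' y hy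
  rw [Real.norm_eq_abs] at h2
  have h4 := abs_le.1 h2
  have h3 := abs_le.1 h1
  linarith [h3.2, h4.1]

/-- **Theorem C.** Let `h : X × ℝ^ω → X` be a homeomorphism, `k` a coordinate of `ℝ^ω`, `g0` in `X`,
`F0` a finite subset of `βω` and `ε > 0`. There are `g` in `X` with `g = g0` on `F0` and
`|g - g0| ≤ 2 ε` everywhere, and `s`, such that moving the `k`-th coordinate of `h⁻¹ g` by `s` moves
`g` by more than `ε`. -/
theorem large_displacement (h : (X × (ℕ → ℝ)) ≃ₜ X) (k : ℕ) (g0 : X) (F0 : Finset (StoneCech ℕ))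
    (ε : ℝ) (hε : 0 ≤ ε) : ∃ g : X, (∀ a ∈ F0, g.1 a = g0.1 a) ∧ (∀ q, |g.1 q - g0.1 q| ≤ 2 * ε) ∧
      ∃ s n : ℕ, ε < |(h ((h.symm g).1, Function.update (h.symm g).2 k
        ((h.symm g).2 k + (s : ℝ)))).1 (un n) - g.1 (un n)| := by
  by_contra hcon
  push Not at hcon
  refine no_small_slice (fun g => (h.symm g).2 k)
    ((continuous_apply k).comp (continuous_snd.comp h.symm.continuous))
    (fun s g => h ((h.symm g).1, Function.update (h.symm g).2 k ((h.symm g).2 k + (s : ℝ))))
    (fun s => ?_) (fun s g => ?_) g0 F0 ε hε (fun s g hg1 hg2 q => ?_)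
  · refine h.continuous.comp ((continuous_fst.comp h.symm.continuous).prodMk ?_)
    refine (continuous_snd.comp h.symm.continuous).update k ?_
    exact ((continuous_apply k).comp (continuous_snd.comp h.symm.continuous)).add
      continuous_const
  · show (h.symm (h ((h.symm g).1, Function.update (h.symm g).2 k ((h.symm g).2 k + (s : ℝ))))).2 k
      = (h.symm g).2 k + s
    rw [h.symm_apply_apply]
    exact Function.update_self _ _ _
  · let d : X := ⟨fun q => (h ((h.symm g).1, Function.update (h.symm g).2 k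
        ((h.symm g).2 k + (s : ℝ)))).1 q - g.1 q,
      (h ((h.symm g).1, Function.update (h.symm g).2 k ((h.symm g).2 k + (s : ℝ)))).2.sub g.2⟩
    exact abs_le_of_un (f := d) (fun n => hcon g hg1 hg2 s n) q

end Pool.Agent.CPB
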