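import Mathlib
import Pool.Agent.CPB.ThmA
import Pool.Agent.CPB.Box

/-!
# Theorem E: no homeomorphism `X × ℝ^ω → X` maps the fibres `{f} × ℝ^ω` into cosets of `c₀`
-/

set_option autoImplicit false

namespace Pool.Agent.CPB

open Set Filter Topology

/-- the sum in `X` -/
def add (f g : X) : X := ⟨fun q => f.1 q + g.1 q, f.2.add g.2⟩

lemma add_apply (f g : X) (q : StoneCech ℕ) : (add f g).1 q = f.1 q + g.1 q := rfl

/-- **Theorem E** (general form). Let `Ψ : X × ℝ^ω → X` and `x k : X → ℝ` be continuous with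
`x k (Ψ (g, t)) = t k`. It is impossible that `Ψ (g, t) - g` is a null sequence on `ω` for all `t`
and all `g` with `|g - g0| ≤ 1` and `g = g0` on a countable set of points at infinity. -/
theorem no_null_flow (Ψ : X × (ℕ → ℝ) → X) (hΨ : Continuous Ψ) (x : ℕ → X → ℝ)
    (hx : ∀ k, Continuous (x k)) (hxΨ : ∀ g t k, x k (Ψ (g, t)) = t k) (g0 : X)
    (A0 : Set (StoneCech ℕ)) (hA0 : A0.Countable)
    (hnull : ∀ g t, (∀ q, |g.1 q - g0.1 q| ≤ 1) → (∀ q ∈ A0, q ∉ range un → g.1 q = g0.1 q) →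
      Tendsto (fun n => (Ψ (g, t)).1 (un n) - g.1 (un n)) atTop (𝓝 0)) : False := by
  classical
  have hc1 : ∀ i, Continuous (fun p : X × (ℕ → ℝ) => (Ψ p).1 (un i)) := fun i =>
    (continuous_apply (un i)).comp (continuous_subtype_val.comp hΨ)
  choose D1 hD1 hD1' using fun i => seq_prod _ (hc1 i)
  choose D2 hD2 hD2' using fun k => seq_X _ (hx k)
  obtain ⟨A, hAdef⟩ : ∃ A, A = A0 ∪ (range un ∪ ((⋃ i, D1 i) ∪ ⋃ k, D2 k)) := ⟨_, rfl⟩
  have hAc : A.Countable := by
    rw [hAdef]
    exact hA0.union ((countable_range _).union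
      ((countable_iUnion hD1).union (countable_iUnion hD2)))
  have hAA : A0 ⊆ A := by rw [hAdef]; exact subset_union_left
  have hA1 : ∀ i, D1 i ⊆ A := by
    intro i; rw [hAdef]
    exact (subset_iUnion D1 i).trans (subset_union_left.trans
      (subset_union_right.trans subset_union_right))
  have hA2 : ∀ k, D2 k ⊆ A := by
    intro k; rw [hAdef]
    exact (subset_iUnion D2 k).trans (subset_union_right.trans
      (subset_union_right.trans subset_union_right))
  let Q : Set (Ultrafilter ℕ) := ufil '' (A \ range un)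
  have hQc : Q.Countable := (hAc.mono sdiff_subset).image _
  have hQf : ∀ U ∈ Q, ∀ F : Finset ℕ, ((F : Set ℕ))ᶜ ∈ U := by
    rintro _ ⟨q, hq, rfl⟩ F
    exact ufil_free hq.2 F
  have hYb : ∀ f ∈ YY Q, ∃ C, ∀ n, |f n| ≤ C := fun f hf => ⟨1, hf.1⟩
  have hY0 : ∀ f ∈ YY Q, ∀ q ∈ A, q ∉ range un → (toX f).1 q = 0 := by
    intro f hf q hq hq'
    exact toX_eq_zero (hYb f hf) (hf.2 _ ⟨q, ⟨hq, hq'⟩, rfl⟩)
  -- the inputs
  let e : (ℕ → ℝ) → X := fun f => add g0 (toX f)
  have he : ∀ f q, (e f).1 q = g0.1 q + (toX f).1 q := fun f q => rfl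
  have heY : ∀ f ∈ YY Q, (∀ q, |(e f).1 q - g0.1 q| ≤ 1) ∧
      ∀ q ∈ A0, q ∉ range un → (e f).1 q = g0.1 q := by
    intro f hf
    refine ⟨fun q => ?_, fun q hq hq' => ?_⟩
    · rw [he, add_sub_cancel_left]
      exact abs_le_of_un (fun n => by rw [toX_un (hYb f hf)]; exact hf.1 n) q
    · rw [he, hY0 f hf q (hAA hq) hq', add_zero]
  -- convergence on `ω` gives convergence on `A`
  have hconv : ∀ (f : ℕ → ℝ) (fs : ℕ → ℕ → ℝ), f ∈ YY Q → (∀ n, fs n ∈ YY Q) →
      (∀ i, Tendsto (fun n => fs n i) atTop (𝓝 (f i))) →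
      ∀ a ∈ A, Tendsto (fun n => (e (fs n)).1 a) atTop (𝓝 ((e f).1 a)) := by
    intro f fs hf hfs hlim a ha
    refine Tendsto.add tendsto_const_nhds ?_
    by_cases hau : a ∈ range un
    · obtain ⟨i, rfl⟩ := hau
      rw [toX_un (hYb f hf)]
      refine (hlim i).congr fun n => ?_
      rw [toX_un (hYb _ (hfs n))]
    · rw [hY0 f hf a ha hau]
      refine tendsto_const_nhds.congr fun n => ?_
      rw [hY0 _ (hfs n) a ha hau]
  let C : ℕ → Set ((ℕ → ℝ) × (ℕ → ℝ)) := fun N =>
    {p | (∀ i, |(Ψ (e p.1, p.2)).1 (un i) - g0.1 (un i)| ≤ N) ∧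
    ∀ i, N ≤ i → |(Ψ (e p.1, p.2)).1 (un i) - g0.1 (un i) - p.1 i| ≤ 1 / 8}
  obtain ⟨N, f0, hf0, t0, F, m, d, hd, hbox⟩ := baireBox Q hQc hQf C (by
    intro N f hf t fs ts hfs hC hl1 hl2
    have key : ∀ i, Tendsto (fun n => (Ψ (e (fs n), ts n)).1 (un i) - g0.1 (un i)) atTop
        (𝓝 ((Ψ (e f, t)).1 (un i) - g0.1 (un i))) := fun i =>
      (hD1' i (e f) t (fun n => e (fs n)) ts
        (fun a ha => hconv f fs hf hfs hl1 a (hA1 i ha)) hl2).sub tendsto_const_nhds
    refine ⟨fun i => ?_, fun i hi => ?_⟩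
    · exact le_of_tendsto ((key i).abs) (Eventually.of_forall fun n => (hC n).1 i)
    · exact le_of_tendsto (((key i).sub (hl1 i)).abs)
        (Eventually.of_forall fun n => (hC n).2 i hi)) (by
    intro f hf t
    obtain ⟨C1, hC1⟩ := bounded (Ψ (e f, t))
    obtain ⟨C2, hC2⟩ := bounded g0
    have h1 := (Metric.tendsto_atTop.1 (hnull (e f) t (heY f hf).1 (heY f hf).2)) (1 / 8)
      (by norm_num)
    obtain ⟨N1, hN1⟩ := h1
    obtain ⟨N2, hN2⟩ := exists_nat_ge (C1 + C2)
    refine ⟨max N1 N2, fun i => ?_, fun i hi => ?_⟩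
    · have h3 : |(Ψ (e f, t)).1 (un i) - g0.1 (un i)| ≤ C1 + C2 :=
        (abs_sub _ _).trans (add_le_add (hC1 _) (hC2 _))
      refine h3.trans (hN2.trans ?_)
      exact_mod_cast le_max_right N1 N2
    · have h2 := hN1 i ((le_max_left _ _).trans hi)
      rw [Real.dist_eq, sub_zero, he, toX_un (hYb f hf)] at h2
      have h4 : (Ψ (e f, t)).1 (un i) - g0.1 (un i) - f i =
        (Ψ (e f, t)).1 (un i) - (g0.1 (un i) + f i) := by ring
      show |(Ψ (e f, t)).1 (un i) - g0.1 (un i) - f i| ≤ 1 / 8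
      rw [h4]
      exact h2.le)
  -- the times
  let ts : ℕ → ℕ → ℝ := fun s j => if j = m then t0 j + s else t0 j
  have hts : ∀ s, ∀ j < m, |ts s j - t0 j| < d := by
    intro s j hj
    simp only [ts]
    rw [if_neg (by omega), sub_self, abs_zero]
    exact hd
  let Fs : ℕ → Finset ℕ := fun s => (Finset.range s).filter (fun i => N ≤ i ∧ i ∉ F)
  have key : ∀ s, ∃ a : ℕ → ℝ, a ∈ YY Q ∧ (∀ i ∉ F ∪ Fs s, a i = 0) ∧ (a, ts s) ∈ C N ∧
      ∀ i ∈ Fs s, (Ψ (e a, ts s)).1 (un i) - g0.1 (un i) = 0 := by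
    intro s
    -- the family of inputs
    let ay : (Fs s → ℝ) → ℕ → ℝ := fun y i =>
      if i ∈ F then f0 i else if hi : i ∈ Fs s then y ⟨i, hi⟩ else 0
    have hay0 : ∀ y, ∀ i ∉ F ∪ Fs s, ay y i = 0 := by
      intro y i hi
      rw [Finset.mem_union, not_or] at hi
      simp only [ay]
      rw [if_neg hi.1, dif_neg hi.2]
    have hayF : ∀ y, ∀ i ∈ F, ay y i = f0 i := fun y i hi => by simp only [ay]; rw [if_pos hi]
    have hayFs : ∀ y, ∀ i (hi : i ∈ Fs s), ay y i = y ⟨i, hi⟩ := by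
      intro y i hi
      simp only [ay]
      rw [if_neg (Finset.mem_filter.1 hi).2.2, dif_pos hi]
    have hayY : ∀ y, (∀ i, |y i| ≤ 1 / 8) → ay y ∈ YY Q := by
      intro y hy
      refine ⟨fun i => ?_, fun U hU => tendsto_of_finsupp (hay0 y) (hQf U hU _)⟩
      by_cases h1 : i ∈ F
      · rw [hayF y i h1]; exact hf0.1 i
      · by_cases h2 : i ∈ Fs s
        · rw [hayFs y i h2]; exact (hy _).trans (by norm_num)
        · rw [hay0 y i (by rw [Finset.mem_union, not_or]; exact ⟨h1, h2⟩), abs_zero]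
          norm_num
    have hcont : Continuous fun y => e (ay y) := by
      refine Continuous.subtype_mk (f := fun y => (e (ay y)).1) ?_ (fun y => (e (ay y)).2)
      refine continuous_pi fun q => ?_
      refine Continuous.add continuous_const ?_
      by_cases hq : q ∈ range un
      · obtain ⟨i, rfl⟩ := hq
        have : (fun y => (toX (ay y)).1 (un i)) = fun y => ay y i := by
          funext y
          exact toX_un (bdd_of_finsupp (hay0 y)) i
        rw [this]
        simp only [ay]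
        split_ifs
        · exact continuous_const
        · exact continuous_apply _
        · exact continuous_const
      · have : (fun y => (toX (ay y)).1 q) = fun _ => 0 := by
          funext y
          exact toX_eq_zero (bdd_of_finsupp (hay0 y))
            (tendsto_of_finsupp (hay0 y) (ufil_free hq _))
        rw [this]
        exact continuous_const
    have hG : Continuous fun (y : Fs s → ℝ) (i : Fs s) =>
        (Ψ (e (ay y), ts s)).1 (un i) - g0.1 (un i) := by
      refine continuous_pi fun i => ?_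
      exact ((continuous_apply (un i)).comp (continuous_subtype_val.comp
        (hΨ.comp (hcont.prodMk continuous_const)))).sub continuous_const
    have hinC : ∀ y, (∀ i, |y i| ≤ 1 / 8) → (ay y, ts s) ∈ C N := by
      intro y hy
      refine hbox _ (hayY y hy) ?_ _ (hts s)
      intro i hi
      rw [hayF y i hi, sub_self, abs_zero]
      exact hd
    obtain ⟨y, hy, hy0⟩ := exists_eq_of_near_id (fun _ : Fs s => (1 / 8 : ℝ)) 0
      (fun (y : Fs s → ℝ) (i : Fs s) => (Ψ (e (ay y), ts s)).1 (un i) - g0.1 (un i))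
      hG.continuousOn
      (fun _ => by norm_num) (by
        intro y hy i
        have hy' : ∀ i, |y i| ≤ 1 / 8 := fun i => by simpa using hy i
        have h1 := (hinC y hy').2 i (Finset.mem_filter.1 i.2).2.1
        have h2 : ay y i = y i := hayFs y i i.2
        have h3 : |(Ψ (e (ay y), ts s)).1 (un i) - g0.1 (un i) - ay y i| ≤ 1 / 8 := h1
        rw [h2] at h3
        exact h3)
    have hy' : ∀ i, |y i| ≤ 1 / 8 := fun i => by simpa using hy i
    refine ⟨ay y, hayY y hy', hay0 y, hinC y hy', ?_⟩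
    intro i hi
    exact congrFun hy0 ⟨i, hi⟩
  choose a haY ha0 haC haz using key
  -- the outputs
  let G : ℕ → X := fun s => Ψ (e (a s), ts s)
  have hGb : ∀ s i, |(G s).1 (un i) - g0.1 (un i)| ≤ N := fun s i => (haC s).1 i
  have hG0 : ∀ s, ∀ q ∉ range un, (G s).1 q = g0.1 q := by
    intro s q hq
    have h1 : (G s).1 q = (e (a s)).1 q := value_eq_of_null
      (hnull (e (a s)) (ts s) (heY _ (haY s)).1 (heY _ (haY s)).2) hq
    rw [h1, he, toX_eq_zero (bdd_of_finsupp (ha0 s))
      (tendsto_of_finsupp (ha0 s) (ufil_free hq _)), add_zero]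
  obtain ⟨L, -, φ, hφ, hφL⟩ := (isCompact_univ_pi (fun _ : ℕ => isCompact_Icc (a := -(N : ℝ))
    (b := N))).tendsto_subseq (x := fun s i => (G s).1 (un i) - g0.1 (un i)) (by
      intro s
      rw [Set.mem_univ_pi]
      exact fun i => abs_le.1 (hGb s i))
  rw [tendsto_pi_nhds] at hφL
  have hL0 : ∀ i ∉ Finset.range N ∪ F, L i = 0 := by
    intro i hi
    rw [Finset.mem_union, not_or, Finset.mem_range, not_lt] at hi
    refine tendsto_nhds_unique (hφL i) ?_
    refine tendsto_const_nhds.congr' ?_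
    filter_upwards [eventually_gt_atTop i] with s hs
    have h1 : i < φ s := hs.trans_le (hφ.id_le s)
    exact (haz (φ s) i (Finset.mem_filter.2 ⟨Finset.mem_range.2 h1, hi.1, hi.2⟩)).symm
  have hlim : ∀ b ∈ A, Tendsto (fun n => (G (φ n)).1 b) atTop (𝓝 ((e L).1 b)) := by
    intro b _
    by_cases hb : b ∈ range un
    · obtain ⟨i, rfl⟩ := hb
      rw [he, toX_un (bdd_of_finsupp hL0)]
      refine ((hφL i).const_add (g0.1 (un i))).congr fun n => ?_
      simp
    · rw [he, toX_eq_zero (bdd_of_finsupp hL0) (tendsto_of_finsupp hL0 (ufil_free hb _)), add_zero]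
      refine tendsto_const_nhds.congr fun n => ?_
      rw [hG0 _ b hb]
  have hxl := hD2' m (e L) (fun n => G (φ n)) (fun a ha => hlim a (hA2 m ha))
  have hx' : ∀ n, x m (G (φ n)) = t0 m + φ n := by
    intro n
    simp only [G, hxΨ, ts, if_true]
  simp only [hx'] at hxl
  have hinf : Tendsto (fun n => t0 m + (φ n : ℝ)) atTop atTop :=
    tendsto_const_nhds.add_atTop (tendsto_natCast_atTop_atTop.comp hφ.tendsto_atTop)
  exact not_tendsto_nhds_of_tendsto_atTop hinf _ hxl

/-- **Theorem E.** Let `h : X × ℝ^ω → X` be a homeomorphism, `g0` in `X` and `A0` a countable set of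
points of `βω`. There are `g` in `X` with `|g - g0| ≤ 1` everywhere and `g = g0` on the points of
`A0` off `ω`, and a point of `X` in the image of the same fibre `{f} × ℝ^ω` as `g` which differs
from `g` by a sequence that does not tend to `0`. -/
theorem moves_infinity (h : (X × (ℕ → ℝ)) ≃ₜ X) (g0 : X) (A0 : Set (StoneCech ℕ))
    (hA0 : A0.Countable) : ∃ g : X, (∀ q, |g.1 q - g0.1 q| ≤ 1) ∧
      (∀ q ∈ A0, q ∉ range un → g.1 q = g0.1 q) ∧ ∃ t : ℕ → ℝ,
        ¬ Tendsto (fun n => (h ((h.symm g).1, t)).1 (un n) - g.1 (un n)) atTop (𝓝 0) := by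
  by_contra hcon
  push Not at hcon
  refine no_null_flow (fun p => h ((h.symm p.1).1, p.2)) ?_ (fun k g => (h.symm g).2 k)
    (fun k => (continuous_apply k).comp (continuous_snd.comp h.symm.continuous)) ?_ g0 A0 hA0
    (fun g t h1 h2 => hcon g h1 h2 t)
  · exact h.continuous.comp ((continuous_fst.comp (h.symm.continuous.comp continuous_fst)).prodMk
      continuous_snd)
  · intro g t k
    show (h.symm (h ((h.symm g).1, t))).2 k = t k
    rw [h.symm_apply_apply]

/-- **Theorem E, global form.** There is no homeomorphism `h : X × ℝ^ω → X` that maps each fibre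
`{f} × ℝ^ω` into a coset of `c₀`. -/
theorem no_fibrewise_null (h : (X × (ℕ → ℝ)) ≃ₜ X)
    (hnull : ∀ f t t', Tendsto (fun n => (h (f, t)).1 (un n) - (h (f, t')).1 (un n)) atTop (𝓝 0)) :
    False := by
  obtain ⟨g, -, -, t, ht⟩ := moves_infinity h ⟨fun _ => 0, continuous_const⟩ ∅ countable_empty
  apply ht
  have h1 := hnull (h.symm g).1 t (h.symm g).2
  have h2 : h ((h.symm g).1, (h.symm g).2) = g := h.apply_symm_apply g
  rw [h2] at h1
  exact h1

end Pool.Agent.CPB
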